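import Mathlib

/-! The curves `y² = x³ + x² + s²`. -/

namespace Pool.Agent.Run7.h942.DG

open WeierstrassCurve WeierstrassCurve.Affine

/-- `y² = x³ + x² + s²` -/
def Ws {F : Type*} [Field F] (s : F) : WeierstrassCurve.Affine F := ⟨0, 1, 0, 0, s ^ 2⟩

section

variable {F : Type*} [Field F] {s : F}

theorem eqn_iff {x y : F} : (Ws s).Equation x y ↔ y ^ 2 = x ^ 3 + x ^ 2 + s ^ 2 := by
  rw [equation_iff]
  simp [Ws]

theorem eqn {x y : F} (h : (Ws s).Nonsingular x y) : y ^ 2 = x ^ 3 + x ^ 2 + s ^ 2 :=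
  eqn_iff.mp h.1

theorem nons [CharZero F] {x y : F} (h : y ^ 2 = x ^ 3 + x ^ 2 + s ^ 2) (hy : y ≠ 0) :
    (Ws s).Nonsingular x y := by
  rw [nonsingular_iff]
  refine ⟨eqn_iff.mpr h, Or.inr ?_⟩
  simp only [Ws]
  intro h1
  apply hy
  have : (2 : F) * y = 0 := by linear_combination h1
  simpa using this

theorem negY_eq (x y : F) : (Ws s).negY x y = -y := by
  simp [Ws]

variable [DecidableEq F]

theorem add_cases [CharZero F] (A B : (Ws s).Point) : A + B = 0 ∨ A = 0 ∨ B = 0 ∨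
    ∃ x₁ y₁ h₁ x₂ y₂ h₂ x₃ y₃ h₃ l, A = .some x₁ y₁ h₁ ∧ B = .some x₂ y₂ h₂ ∧
      A + B = .some x₃ y₃ h₃ ∧ x₃ = l ^ 2 - 1 - x₁ - x₂ ∧ y₃ = -(l * (x₃ - x₁) + y₁) ∧
      ((x₁ ≠ x₂ ∧ l = (y₁ - y₂) / (x₁ - x₂)) ∨
        (x₁ = x₂ ∧ y₁ = y₂ ∧ y₁ ≠ 0 ∧ l = (3 * x₁ ^ 2 + 2 * x₁) / (2 * y₁))) := by
  rcases A with _ | ⟨x₁, y₁, h₁⟩
  · exact Or.inr (Or.inl rfl)
  rcases B with _ | ⟨x₂, y₂, h₂⟩
  · exact Or.inr (Or.inr (Or.inl rfl))
  by_cases hxy : x₁ = x₂ ∧ y₁ = (Ws s).negY x₂ y₂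
  · left
    exact Point.add_of_Y_eq hxy.1 hxy.2
  · right; right; right
    refine ⟨x₁, y₁, h₁, x₂, y₂, h₂, _, _, nonsingular_add h₁ h₂ hxy, (Ws s).slope x₁ x₂ y₁ y₂,
      rfl, rfl, Point.add_some hxy, ?_, ?_, ?_⟩
    · simp [addX, Ws]
    · simp only [addY, negAddY, negY_eq]
    · by_cases hx : x₁ = x₂
      · right
        have hy : y₁ ≠ (Ws s).negY x₂ y₂ := fun h => hxy ⟨hx, h⟩
        have hy2 : y₁ = y₂ := Y_eq_of_Y_ne h₁.1 h₂.1 hx hy
        have hy0 : y₁ ≠ 0 := by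
          rintro rfl
          apply hy
          rw [negY_eq, ← hy2, neg_zero]
        refine ⟨hx, hy2, hy0, ?_⟩
        rw [slope_of_Y_ne hx hy, negY_eq]
        simp only [Ws]
        congr 1
        · ring
        · ring
      · left
        exact ⟨hx, slope_of_X_ne hx⟩

/-- action of a field endomorphism fixing `s` -/
def act (φ : F →+* F) (hs : φ s = s) : (Ws s).Point →+ (Ws s).Point where
  toFun P := match P with
    | 0 => 0
    | .some x y h => .some (φ x) (φ y) (by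
        have := (map_nonsingular (Ws s) (f := φ) φ.injective x y).mpr h
        have hW : (Ws s).map φ = Ws s := by
          ext <;> simp [Ws, WeierstrassCurve.map, hs]
        rwa [hW] at this)
  map_zero' := rfl
  map_add' := by
    have hW : (Ws s).map φ = Ws s := by
      ext <;> simp [Ws, WeierstrassCurve.map, hs]
    rintro (_ | ⟨x₁, y₁, h₁⟩) (_ | ⟨x₂, y₂, h₂⟩)
    any_goals rfl
    by_cases hxy : x₁ = x₂ ∧ y₁ = (Ws s).negY x₂ y₂
    · rw [Point.add_of_Y_eq hxy.left hxy.right]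
      symm
      apply Point.add_of_Y_eq
      · rw [hxy.1]
      · rw [hxy.2, negY_eq, negY_eq, map_neg]
    · have h3 : ¬ (φ x₁ = φ x₂ ∧ φ y₁ = (Ws s).negY (φ x₂) (φ y₂)) := by
        rintro ⟨h4, h5⟩
        refine hxy ⟨φ.injective h4, φ.injective ?_⟩
        rw [h5, negY_eq, negY_eq, map_neg]
      rw [Point.add_some hxy]
      symm
      refine (Point.add_some h3).trans ?_
      have e1 := map_slope (W := Ws s) (f := φ) x₁ x₂ y₁ y₂
      rw [hW] at e1
      have e2 := map_addX (W' := Ws s) (f := φ) x₁ x₂ ((Ws s).slope x₁ x₂ y₁ y₂)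
      rw [hW, ← e1] at e2
      have e3 := map_addY (W' := Ws s) (f := φ) x₁ y₁ x₂ ((Ws s).slope x₁ x₂ y₁ y₂)
      rw [hW, ← e1] at e3
      simp only [Point.some.injEq]
      exact ⟨e2, e3⟩

theorem act_some (φ : F →+* F) (hs : φ s = s) {x y : F} (h : (Ws s).Nonsingular x y) :
    ∃ h', act φ hs (.some x y h) = .some (φ x) (φ y) h' := ⟨_, rfl⟩

/-- the points with coordinates in a subfield -/
def ptSub [CharZero F] (s : F) (k : Subfield F) : AddSubgroup (Ws s).Point where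
  carrier := {A | A = 0 ∨ ∃ x y h, A = .some x y h ∧ x ∈ k ∧ y ∈ k}
  zero_mem' := Or.inl rfl
  add_mem' := by
    intro A B hA hB
    rcases add_cases A B with h | h | h | h
    · left; exact h
    · rw [h, zero_add]; exact hB
    · rw [h, add_zero]; exact hA
    · right
      obtain ⟨x₁, y₁, h₁, x₂, y₂, h₂, x₃, y₃, h₃, l, hA', hB', hAB, hx₃, hy₃, hl⟩ := h
      rcases hA with hA | ⟨a₁, b₁, c₁, hA, ha₁, hb₁⟩
      · rw [hA'] at hA; exact absurd hA (Point.some_ne_zero _)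
      rcases hB with hB | ⟨a₂, b₂, c₂, hB, ha₂, hb₂⟩
      · rw [hB'] at hB; exact absurd hB (Point.some_ne_zero _)
      rw [hA', Point.some.injEq] at hA
      rw [hB', Point.some.injEq] at hB
      obtain ⟨rfl, rfl⟩ := hA
      obtain ⟨rfl, rfl⟩ := hB
      have hlk : l ∈ k := by
        rcases hl with ⟨_, rfl⟩ | ⟨_, _, _, rfl⟩
        · exact div_mem (sub_mem hb₁ hb₂) (sub_mem ha₁ ha₂)
        · refine div_mem (add_mem (mul_mem ?_ (pow_mem ha₁ 2)) (mul_mem ?_ ha₁)) (mul_mem ?_ hb₁)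
          · exact_mod_cast natCast_mem k 3
          · exact_mod_cast natCast_mem k 2
          · exact_mod_cast natCast_mem k 2
      have hx₃k : x₃ ∈ k := by
        rw [hx₃]
        exact sub_mem (sub_mem (sub_mem (pow_mem hlk 2) (one_mem k)) ha₁) ha₂
      refine ⟨x₃, y₃, h₃, hAB, hx₃k, ?_⟩
      rw [hy₃]
      exact neg_mem (add_mem (mul_mem hlk (sub_mem hx₃k ha₁)) hb₁)
  neg_mem' := by
    rintro A (rfl | ⟨x, y, h, rfl, hx, hy⟩)
    · left; rfl
    · right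
      refine ⟨_, _, _, Point.neg_some h, hx, ?_⟩
      rw [negY_eq]
      exact neg_mem hy

theorem mem_ptSub_some [CharZero F] {k : Subfield F} {x y : F}
    {h : (Ws s).Nonsingular x y} : Point.some x y h ∈ ptSub s k ↔ x ∈ k ∧ y ∈ k := by
  constructor
  · rintro (h0 | ⟨a, b, c, h0, ha, hb⟩)
    · exact absurd h0 (Point.some_ne_zero _)
    · rw [Point.some.injEq] at h0
      obtain ⟨rfl, rfl⟩ := h0
      exact ⟨ha, hb⟩
  · rintro ⟨hx, hy⟩
    exact Or.inr ⟨x, y, h, rfl, hx, hy⟩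

/-- duplication on the `x`-coordinate -/
theorem double_x [CharZero F] {x y : F} (h : (Ws s).Nonsingular x y) (hy : y ≠ 0) :
    ∃ y' h', (Point.some x y h : (Ws s).Point) + .some x y h = .some
      ((x ^ 4 - 8 * s ^ 2 * x - 4 * s ^ 2) / (4 * (x ^ 3 + x ^ 2 + s ^ 2))) y' h' := by
  have hxy : ¬ (x = x ∧ y = (Ws s).negY x y) := by
    rintro ⟨_, h2⟩
    rw [negY_eq] at h2
    apply hy
    have : (2 : F) * y = 0 := by linear_combination h2
    simpa using this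
  have e := eqn h
  have h3 : (Ws s).addX x x ((Ws s).slope x x y y) =
      (x ^ 4 - 8 * s ^ 2 * x - 4 * s ^ 2) / (4 * (x ^ 3 + x ^ 2 + s ^ 2)) := by
    have hy' : y ≠ (Ws s).negY x y := fun h => hxy ⟨rfl, h⟩
    have hsl : (Ws s).slope x x y y = (3 * x ^ 2 + 2 * x) / (2 * y) := by
      rw [slope_of_Y_ne rfl hy', negY_eq]
      simp only [Ws]
      congr 1
      · ring
      · ring
    rw [hsl, ← e]
    simp only [addX, Ws]
    have h2 : (2 : F) * y ≠ 0 := mul_ne_zero two_ne_zero hy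
    field_simp
    linear_combination (-32 * x - 16) * e
  rw [Point.add_some hxy]
  refine ⟨(Ws s).addY x x y ((Ws s).slope x x y y), h3 ▸ nonsingular_add h h hxy, ?_⟩
  rw [Point.some.injEq]
  exact ⟨h3, rfl⟩

end

end Pool.Agent.Run7.h942.DG
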