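import Mathlib

/-!
Rational self-maps of projective space, iterates and their degrees.
-/

namespace Pool.Agent.Run7.h942.DG

open MvPolynomial

/-- `F = [F_0 : ... : F_N]` is a rational self-map of `P^N` of degree `d` written in reduced form:
the `F_i` are homogeneous polynomials of one common degree `d` without nonconstant common factor
(a unit of the polynomial ring over a field is a nonzero constant). -/
structure IsRatMap {K : Type*} [Field K] {N : ℕ}
    (F : Fin (N + 1) → MvPolynomial (Fin (N + 1)) K) (d : ℕ) : Prop where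
  homog : ∀ i, (F i).IsHomogeneous d
  coprime : ∀ g : MvPolynomial (Fin (N + 1)) K, (∀ i, g ∣ F i) → IsUnit g

/-- The (unreduced) homogeneous coordinates of the `n`-th iterate of `F`. -/
noncomputable def iter {K : Type*} [Field K] {N : ℕ}
    (F : Fin (N + 1) → MvPolynomial (Fin (N + 1)) K) :
    ℕ → Fin (N + 1) → MvPolynomial (Fin (N + 1)) K
  | 0 => X
  | n + 1 => fun i => aeval (iter F n) (F i)

/-- `deg (f^n) = d`: after removing the common factor `h` of the coordinates of the `n`-th iterate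
one obtains a rational map of degree `d`. -/
def IterDeg {K : Type*} [Field K] {N : ℕ}
    (F : Fin (N + 1) → MvPolynomial (Fin (N + 1)) K) (n d : ℕ) : Prop :=
  ∃ (h : MvPolynomial (Fin (N + 1)) K) (G : Fin (N + 1) → MvPolynomial (Fin (N + 1)) K),
    h ≠ 0 ∧ IsRatMap G d ∧ ∀ i, iter F n i = h * G i

/-- `F(n) ≍ G(n)`. -/
def Comparable (D G : ℕ → ℝ) : Prop :=
  ∃ c₁ c₂ c₃ : ℝ, 0 < c₁ ∧ 0 < c₂ ∧ 0 < c₃ ∧
    ∀ n : ℕ, c₃ ≤ n → c₁ * G n ≤ D n ∧ D n ≤ c₂ * G n

end Pool.Agent.Run7.h942.DG
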