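import Pool.Agent.Run7.h942.DG.Hom

/-! Every `K`-endomorphism of `K(z_1,...,z_N)` gives a dominant rational self-map of `P^N`; degrees
of the iterates are controlled by the heights of the images of the coordinates. -/

namespace Pool.Agent.Run7.h942.DG

open MvPolynomial

variable {K : Type*} [Field K] {N : ℕ}

theorem alg_dh (p : MvPolynomial (Fin (N + 1)) K) :
    algebraMap (MvPolynomial (Fin N) K) (FractionRing (MvPolynomial (Fin N) K)) (dh p) =
      aeval (Fin.cons 1 (zc K N) : Fin (N + 1) → FractionRing (MvPolynomial (Fin N) K)) p := by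
  have : ((IsScalarTower.toAlgHom K (MvPolynomial (Fin N) K)
      (FractionRing (MvPolynomial (Fin N) K))).comp dh) =
      aeval (Fin.cons 1 (zc K N) : Fin (N + 1) → FractionRing (MvPolynomial (Fin N) K)) := by
    apply MvPolynomial.algHom_ext
    intro j
    refine Fin.cases ?_ (fun i => ?_) j
    · rw [AlgHom.comp_apply, dh_zero, map_one, aeval_X, Fin.cons_zero]
    · rw [AlgHom.comp_apply, dh_succ, aeval_X, Fin.cons_succ]
      rfl
  rw [← this]
  rfl

theorem alg_inj : Function.Injective (algebraMap (MvPolynomial (Fin N) K)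
    (FractionRing (MvPolynomial (Fin N) K))) :=
  FaithfulSMul.algebraMap_injective _ _

/-- a tuple of homogeneous polynomials evaluated at a tuple representing `ψ(z)` -/
theorem alg_dh_comp {G : Fin (N + 1) → MvPolynomial (Fin (N + 1)) K}
    (ψ : FractionRing (MvPolynomial (Fin N) K) →ₐ[K] FractionRing (MvPolynomial (Fin N) K))
    (hG : Rep G (fun i => ψ (zc K N i))) {p : MvPolynomial (Fin (N + 1)) K} {d : ℕ}
    (hp : p.IsHomogeneous d) :
    algebraMap (MvPolynomial (Fin N) K) (FractionRing (MvPolynomial (Fin N) K))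
      (dh (aeval G p)) =
      (algebraMap (MvPolynomial (Fin N) K) (FractionRing (MvPolynomial (Fin N) K))
        (dh (G 0))) ^ d * ψ (algebraMap (MvPolynomial (Fin N) K)
          (FractionRing (MvPolynomial (Fin N) K)) (dh p)) := by
  set e := algebraMap (MvPolynomial (Fin N) K) (FractionRing (MvPolynomial (Fin N) K))
        (dh (G 0)) with he
  let v : Fin (N + 1) → FractionRing (MvPolynomial (Fin N) K) :=
    fun j => ψ ((Fin.cons 1 (zc K N) : Fin (N + 1) → FractionRing (MvPolynomial (Fin N) K)) j)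
  have h1 : (((IsScalarTower.toAlgHom K (MvPolynomial (Fin N) K)
      (FractionRing (MvPolynomial (Fin N) K))).comp dh).comp (aeval G)) =
      aeval (fun j => e * v j) := by
    apply MvPolynomial.algHom_ext
    intro j
    rw [AlgHom.comp_apply, aeval_X, AlgHom.comp_apply, aeval_X]
    refine Fin.cases ?_ (fun i => ?_) j
    · simp only [v, Fin.cons_zero, map_one, mul_one]
      rfl
    · simp only [v, Fin.cons_succ]
      rw [mul_comm]
      exact hG.2 i
  have h2 : algebraMap (MvPolynomial (Fin N) K) (FractionRing (MvPolynomial (Fin N) K))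
      (dh (aeval G p)) = aeval (fun j => e * v j) p := by
    rw [← h1]; rfl
  rw [h2, aeval_scale hp, alg_dh]
  congr 1
  have h3 : ψ.comp (aeval (Fin.cons 1 (zc K N) : Fin (N + 1) → _)) = aeval v := by
    apply MvPolynomial.algHom_ext
    intro j
    rw [AlgHom.comp_apply, aeval_X, aeval_X]
  rw [← h3]
  rfl

theorem iter_homog {F : Fin (N + 1) → MvPolynomial (Fin (N + 1)) K} {d : ℕ}
    (hF : ∀ i, (F i).IsHomogeneous d) (n : ℕ) : ∀ i, (iter F n i).IsHomogeneous (d ^ n) := by
  induction n with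
  | zero => intro i; simpa [iter] using isHomogeneous_X K i
  | succ n ih =>
    intro i
    rw [pow_succ]
    exact (hF i).aeval _ ih

theorem rep_iter {F : Fin (N + 1) → MvPolynomial (Fin (N + 1)) K} {d : ℕ}
    (hF : ∀ i, (F i).IsHomogeneous d)
    (φ : FractionRing (MvPolynomial (Fin N) K) →ₐ[K] FractionRing (MvPolynomial (Fin N) K))
    (hφ : Rep F (fun i => φ (zc K N i))) (n : ℕ) :
    Rep (iter F n) (fun i => (φ ^ n) (zc K N i)) := by
  induction n with
  | zero =>
    refine ⟨?_, fun i => ?_⟩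
    · simp [iter, dh_zero]
    · simp [iter, dh_zero, dh_succ, zc]
  | succ n ih =>
    have h1 := fun i => alg_dh_comp (φ ^ n) ih (hF i)
    refine ⟨?_, fun i => ?_⟩
    · intro h0
      have h2 := h1 0
      have h3 : dh (aeval (iter F n) (F 0)) = 0 := h0
      rw [h3, map_zero] at h2
      rcases mul_eq_zero.mp h2.symm with h4 | h4
      · have h5 := eq_zero_of_pow_eq_zero h4
        rw [← map_zero (algebraMap (MvPolynomial (Fin N) K)
          (FractionRing (MvPolynomial (Fin N) K)))] at h5
        exact ih.1 (alg_inj h5)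
      · have h5 := (map_eq_zero_iff _ (φ ^ n).injective).mp h4
        rw [← map_zero (algebraMap (MvPolynomial (Fin N) K)
          (FractionRing (MvPolynomial (Fin N) K)))] at h5
        exact hφ.1 (alg_inj h5)
    · have e1 : iter F (n + 1) i.succ = aeval (iter F n) (F i.succ) := rfl
      have e0 : iter F (n + 1) 0 = aeval (iter F n) (F 0) := rfl
      rw [e1, e0, h1, h1, hφ.2 i, map_mul]
      have : (φ ^ (n + 1)) (zc K N i) = (φ ^ n) (φ (zc K N i)) := by
        rw [pow_succ]; rfl
      beta_reduce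
      rw [this]
      ring

theorem dominant {F : Fin (N + 1) → MvPolynomial (Fin (N + 1)) K} {d : ℕ}
    (hF : ∀ i, (F i).IsHomogeneous d) (hd : d ≠ 0)
    (φ : FractionRing (MvPolynomial (Fin N) K) →ₐ[K] FractionRing (MvPolynomial (Fin N) K))
    (hφ : Rep F (fun i => φ (zc K N i))) : AlgebraicIndependent K F := by
  rw [algebraicIndependent_iff]
  intro p hp
  rw [← sum_homogeneousComponent p]
  refine Finset.sum_eq_zero fun k hk => ?_
  have hkh : (homogeneousComponent k p).IsHomogeneous k := homogeneousComponent_isHomogeneous k p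
  have h1 : aeval F (homogeneousComponent k p) = 0 := by
    have h2 : homogeneousComponent (d * k) (aeval F p) = 0 := by rw [hp, map_zero]
    conv_lhs at h2 => rw [← sum_homogeneousComponent p]
    rw [map_sum, map_sum, Finset.sum_eq_single_of_mem k hk] at h2
    · rwa [homogeneousComponent_of_mem (hkh.aeval _ hF), if_pos rfl] at h2
    · intro l _ hlk
      rw [homogeneousComponent_of_mem ((homogeneousComponent_isHomogeneous l p).aeval _ hF),
        if_neg]
      intro h3
      exact hlk (Nat.eq_of_mul_eq_mul_left (Nat.pos_of_ne_zero hd) h3).symm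
  have h3 := alg_dh_comp φ hφ hkh
  rw [h1, map_zero, map_zero] at h3
  rcases mul_eq_zero.mp h3.symm with h4 | h4
  · exfalso
    have h5 := eq_zero_of_pow_eq_zero h4
    rw [← map_zero (algebraMap (MvPolynomial (Fin N) K)
      (FractionRing (MvPolynomial (Fin N) K)))] at h5
    exact hφ.1 (alg_inj h5)
  · have h5 := (map_eq_zero_iff _ φ.injective).mp h4
    rw [← map_zero (algebraMap (MvPolynomial (Fin N) K)
      (FractionRing (MvPolynomial (Fin N) K)))] at h5
    exact dh_inj hkh (alg_inj h5)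

theorem degree_ne_zero {F : Fin (N + 1) → MvPolynomial (Fin (N + 1)) K} {d : ℕ}
    (hF : ∀ i, (F i).IsHomogeneous d)
    (φ : FractionRing (MvPolynomial (Fin N) K) →ₐ[K] FractionRing (MvPolynomial (Fin N) K))
    (hφ : Rep F (fun i => φ (zc K N i))) (i : Fin N) : d ≠ 0 := by
  rintro rfl
  have h1 : ∀ j, ∃ c : K, F j = C c := by
    intro j
    have h2 := (hF j).totalDegree_le
    exact ⟨_, totalDegree_eq_zero_iff_eq_C.mp (Nat.le_zero.mp h2)⟩
  choose c hc using h1
  have h3 := hφ.2 i
  have h4 := hφ.1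
  rw [hc, hc] at h3
  rw [hc] at h4
  have e : ∀ a : K, (dh (C a : MvPolynomial (Fin (N + 1)) K)) = C a := fun a =>
    (dh (K := K) (N := N)).commutes a
  rw [e] at h4
  rw [e, e] at h3
  have hc0 : c 0 ≠ 0 := by
    intro h; rw [h, C_0] at h4; exact h4 rfl
  have e2 : ∀ a : K, algebraMap (MvPolynomial (Fin N) K)
      (FractionRing (MvPolynomial (Fin N) K)) (C a) = φ (algebraMap (MvPolynomial (Fin N) K)
      (FractionRing (MvPolynomial (Fin N) K)) (C a)) := by
    intro a
    have : algebraMap (MvPolynomial (Fin N) K)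
      (FractionRing (MvPolynomial (Fin N) K)) (C a) = algebraMap K _ a := by
      rw [IsScalarTower.algebraMap_apply K (MvPolynomial (Fin N) K)]
      rfl
    rw [this, φ.commutes]
  rw [e2 (c 0), e2 (c i.succ), ← map_mul] at h3
  have h5 := φ.injective h3
  rw [zc, ← map_mul] at h5
  have h6 := alg_inj h5
  have h7 : (C (c i.succ) : MvPolynomial (Fin N) K).totalDegree = 0 := totalDegree_C _
  rw [h6, totalDegree_mul_of_isDomain (X_ne_zero i) h4, totalDegree_X, totalDegree_C] at h7
  omega

/-- Packaged form. -/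
theorem abstract_main (hN : 0 < N)
    (φ : FractionRing (MvPolynomial (Fin N) K) →ₐ[K] FractionRing (MvPolynomial (Fin N) K)) :
    ∃ (F : Fin (N + 1) → MvPolynomial (Fin (N + 1)) K) (d : ℕ), IsRatMap F d ∧
      AlgebraicIndependent K F ∧ ∃ deg : ℕ → ℕ, (∀ n e, IterDeg F n e ↔ e = deg n) ∧
      (∀ n M, (∀ i, Bd ((φ ^ n) (zc K N i)) M) → deg n ≤ N * M) ∧
      (∀ n i, Bd ((φ ^ n) (zc K N i)) (deg n)) ∧ (∀ n, deg n ≠ 0) := by
  have hbd : ∀ a : FractionRing (MvPolynomial (Fin N) K), ∃ M, Bd a M := by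
    intro a
    obtain ⟨g, h, hh, rfl⟩ := IsFractionRing.div_surjective (A := MvPolynomial (Fin N) K) a
    exact ⟨max g.totalDegree h.totalDegree, g, h, nonZeroDivisors.ne_zero hh,
      le_max_left _ _, le_max_right _ _, rfl⟩
  have hbd' : ∀ w : Fin N → FractionRing (MvPolynomial (Fin N) K), ∃ M, ∀ i, Bd (w i) M := by
    intro w
    choose M hM using fun i => hbd (w i)
    refine ⟨∑ i, M i, fun i => ?_⟩
    obtain ⟨g, h, hh, h1, h2, h3⟩ := hM i
    have h4 : M i ≤ ∑ i, M i := Finset.single_le_sum (fun _ _ => Nat.zero_le _) (Finset.mem_univ i)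
    exact ⟨g, h, hh, h1.trans h4, h2.trans h4, h3⟩
  have hrep : ∀ w : Fin N → FractionRing (MvPolynomial (Fin N) K),
      ∃ (G : Fin (N + 1) → MvPolynomial (Fin (N + 1)) K) (d : ℕ), IsRatMap G d ∧ Rep G w := by
    intro w
    obtain ⟨M, hM⟩ := hbd' w
    obtain ⟨G, d, h1, h2, _⟩ := exists_rep w M hM
    exact ⟨G, d, h1, h2⟩
  obtain ⟨F, d, hF, hFφ⟩ := hrep (fun i => φ (zc K N i))
  refine ⟨F, d, hF, dominant hF.homog (degree_ne_zero hF.homog φ hFφ ⟨0, hN⟩) φ hFφ, ?_⟩
  choose G deg hG hGrep using fun n => hrep (fun i => (φ ^ n) (zc K N i))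
  have hdegle : ∀ n (H : Fin (N + 1) → MvPolynomial (Fin (N + 1)) K) (D : ℕ),
      (∀ i, (H i).IsHomogeneous D) → Rep H (fun i => (φ ^ n) (zc K N i)) → deg n ≤ D := by
    intro n H D hH hHr
    obtain ⟨h, hh, hhG⟩ := rep_unique (hG n) (hGrep n) hH hHr
    have hG0 : G n 0 ≠ 0 := by
      intro h0
      apply (hGrep n).1
      rw [h0, map_zero]
    have h1 := hH 0
    rw [hhG 0] at h1
    obtain ⟨e, he, heh⟩ := factor_homog h1 (mul_ne_zero hh hG0)
    have := heh.inj_right ((hG n).homog 0) hG0
    omega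
  refine ⟨deg, fun n e => ⟨?_, ?_⟩, ?_, ?_,
    fun n => degree_ne_zero (hG n).homog (φ ^ n) (hGrep n) ⟨0, hN⟩⟩
  · rintro ⟨h, G', hh, hG', hiter⟩
    have hr := rep_iter hF.homog φ hFφ n
    have hr' : Rep G' (fun i => (φ ^ n) (zc K N i)) := by
      have hdh : dh h ≠ 0 := by
        intro h0
        apply hr.1
        rw [hiter, map_mul, h0, zero_mul]
      refine ⟨fun h0 => hr.1 (by rw [hiter, map_mul, h0, mul_zero]), fun i => ?_⟩
      have h1 := hr.2 i
      rw [hiter, hiter, map_mul, map_mul, map_mul, map_mul] at h1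
      have h2 : algebraMap (MvPolynomial (Fin N) K)
          (FractionRing (MvPolynomial (Fin N) K)) (dh h) ≠ 0 := by
        intro h3
        rw [← map_zero (algebraMap (MvPolynomial (Fin N) K)
          (FractionRing (MvPolynomial (Fin N) K)))] at h3
        exact hdh (alg_inj h3)
      apply mul_left_cancel₀ h2
      rw [h1]
      ring
    have h1 := hdegle n G' e hG'.homog hr'
    obtain ⟨h', hh', hhG'⟩ := rep_unique hG' hr' (hG n).homog (hGrep n)
    have hG0 : G' 0 ≠ 0 := by
      intro h0
      apply hr'.1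
      rw [h0, map_zero]
    have h3 := (hG n).homog 0
    rw [hhG' 0] at h3
    obtain ⟨e', he', heh'⟩ := factor_homog h3 (mul_ne_zero hh' hG0)
    have := heh'.inj_right (hG'.homog 0) hG0
    omega
  · rintro rfl
    have hr := rep_iter hF.homog φ hFφ n
    obtain ⟨h, hh, hhG⟩ := rep_unique (hG n) (hGrep n) (iter_homog hF.homog n) hr
    exact ⟨h, G n, hh, hG n, hhG⟩
  · intro n M hM
    obtain ⟨H, D, hH, hHr, hD⟩ := exists_rep _ M hM
    exact (hdegle n H D hH.homog hHr).trans hD
  · intro n i
    refine ⟨dh (G n i.succ), dh (G n 0), (hGrep n).1, totalDegree_dh_le ((hG n).homog _),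
      totalDegree_dh_le ((hG n).homog _), ?_⟩
    rw [eq_div_iff]
    · exact ((hGrep n).2 i).symm
    · intro h3
      rw [← map_zero (algebraMap (MvPolynomial (Fin N) K)
        (FractionRing (MvPolynomial (Fin N) K)))] at h3
      exact (hGrep n).1 (alg_inj h3)

end Pool.Agent.Run7.h942.DG
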