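import Pool.Agent.Run7.h942.DG.Lower
import Pool.Agent.Run7.h942.DG.Iter

/-! Assembly. -/

namespace Pool.Agent.Run7.h942.DG

open MvPolynomial WeierstrassCurve WeierstrassCurve.Affine Filter Topology

section

variable {K : Type*} [Field K] [CharZero K] [DecidableEq (LL K)]

omit [CharZero K] [DecidableEq (LL K)] in
theorem pow_ss (φ : LL K →ₐ[K] LL K) (hs : φ (ss K) = ss K) (n : ℕ) :
    (φ ^ n) (ss K) = ss K := by
  induction n with
  | zero => rfl
  | succ n ih => rw [pow_succ]; change (φ ^ n) (φ (ss K)) = ss K; rw [hs, ih]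

theorem iter_points (φ : LL K →ₐ[K] LL K) (hs : φ (ss K) = ss K)
    (h1 : act (φ : LL K →+* LL K) hs (PP K) = PP K + 2 • sg K)
    (h2 : act (φ : LL K →+* LL K) hs (QQ K) = QQ K + PP K + sg K) (n : ℕ) :
    (∃ h, PP K + (2 * n) • sg K = .some ((φ ^ n) (x1 K)) ((φ ^ n) (y1 K)) h) ∧
    (∃ h, QQ K + n • PP K + n ^ 2 • sg K = .some ((φ ^ n) (x2 K)) ((φ ^ n) (y2 K)) h) := by
  have hsg : act (φ : LL K →+* LL K) hs (sg K) = sg K := by
    obtain ⟨h', hh⟩ := act_some (s := ss K) (φ : LL K →+* LL K) hs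
      (nons (x := 0) (y := ss K) (by ring) (ss_ne K))
    rw [sg, hh, Point.some.injEq]
    exact ⟨map_zero _, hs⟩
  induction n with
  | zero =>
    constructor
    · exact ⟨_, by rw [mul_zero, zero_nsmul, add_zero]; rfl⟩
    · exact ⟨_, by rw [zero_nsmul, add_zero, zero_pow two_ne_zero, zero_nsmul, add_zero]; rfl⟩
  | succ n ih =>
    obtain ⟨⟨g1, e1⟩, ⟨g2, e2⟩⟩ := ih
    have E1 := congrArg (act (φ : LL K →+* LL K) hs) e1
    have E2 := congrArg (act (φ : LL K →+* LL K) hs) e2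
    rw [map_add, map_nsmul, h1, hsg] at E1
    rw [map_add, map_add, map_nsmul, map_nsmul, h1, h2, hsg] at E2
    obtain ⟨k1, hk1⟩ := act_some (s := ss K) (φ : LL K →+* LL K) hs g1
    obtain ⟨k2, hk2⟩ := act_some (s := ss K) (φ : LL K →+* LL K) hs g2
    rw [hk1] at E1
    rw [hk2] at E2
    have p1 : ∀ x, (φ ^ (n + 1)) x = φ ((φ ^ n) x) := by
      intro x
      rw [pow_succ']
      rfl
    constructor
    · refine ⟨by rw [p1, p1]; exact k1, ?_⟩
      have : PP K + (2 * (n + 1)) • sg K = PP K + 2 • sg K + (2 * n) • sg K := by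
        rw [mul_add, add_nsmul]; abel
      rw [this, E1, Point.some.injEq, p1, p1]
      exact ⟨rfl, rfl⟩
    · refine ⟨by rw [p1, p1]; exact k2, ?_⟩
      have : QQ K + (n + 1) • PP K + (n + 1) ^ 2 • sg K =
          QQ K + PP K + sg K + n • (PP K + 2 • sg K) + n ^ 2 • sg K := by
        have e : (n + 1) ^ 2 = n ^ 2 + n * 2 + 1 := by ring
        rw [e, add_nsmul, add_nsmul, add_nsmul, one_nsmul, one_nsmul, nsmul_add, mul_nsmul']
        abel
      rw [this, E2, Point.some.injEq, p1, p1]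
      exact ⟨rfl, rfl⟩

end

section

variable {K : Type*} [Field K] [CharZero K] [DecidableEq (LL K)]

/-- heights of the coordinates `z_i` of the `n`-th iterate -/
theorem coord_bound (φ : LL K →ₐ[K] LL K) (hs : φ (ss K) = ss K)
    (h1 : act (φ : LL K →+* LL K) hs (PP K) = PP K + 2 • sg K)
    (h2 : act (φ : LL K →+* LL K) hs (QQ K) = QQ K + PP K + sg K) {cs : ℕ} (hcs : Bd (ss K) cs)
    (n B : ℕ) (u1 : PB (PP K + (2 * n) • sg K) B)
    (u2 : PB (QQ K + n • PP K + n ^ 2 • sg K) B) (i : Fin 3) :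
    Bd ((φ ^ n) (zc K 3 i)) (2 * B + cs) := by
  obtain ⟨⟨g1, e1⟩, ⟨g2, e2⟩⟩ := iter_points φ hs h1 h2 n
  rw [e1] at u1
  rw [e2] at u2
  have v1 : Bd ((φ ^ n) (x1 K)) B ∧ Bd ((φ ^ n) (y1 K)) B := by
    rcases u1 with h0 | ⟨x, y, h, h0, hx, hy⟩
    · exact absurd h0 (Point.some_ne_zero _)
    · rw [Point.some.injEq] at h0
      rw [h0.1, h0.2]
      exact ⟨hx, hy⟩
  have v2 : Bd ((φ ^ n) (x2 K)) B ∧ Bd ((φ ^ n) (y2 K)) B := by
    rcases u2 with h0 | ⟨x, y, h, h0, hx, hy⟩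
    · exact absurd h0 (Point.some_ne_zero _)
    · rw [Point.some.injEq] at h0
      rw [h0.1, h0.2]
      exact ⟨hx, hy⟩
  have hsn : (φ ^ n) (ss K) = ss K := pow_ss φ hs n
  fin_cases i
  · have : m1 K = (y1 K - x1 K) / ss K := by
      rw [y1, eq_div_iff (ss_ne K)]; ring
    change Bd ((φ ^ n) (m1 K)) _
    rw [this, map_div₀, map_sub, hsn]
    exact ((v1.2.sub v1.1).div hcs).mono (by omega)
  · have : m2 K = (y2 K - x2 K) / ss K := by
      rw [y2, eq_div_iff (ss_ne K)]; ring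
    change Bd ((φ ^ n) (m2 K)) _
    rw [this, map_div₀, map_sub, hsn]
    exact ((v2.2.sub v2.1).div hcs).mono (by omega)
  · have : kap K = x1 K / x2 K := by
      rw [x1, eq_div_iff (x2_ne K)]
    change Bd ((φ ^ n) (kap K)) _
    rw [this, map_div₀]
    exact (v1.1.div v2.1).mono (by omega)

end

theorem growth (K : Type*) [Field K] [CharZero K] :
    ∃ (F : Fin 4 → MvPolynomial (Fin 4) K) (d : ℕ), IsRatMap F d ∧ AlgebraicIndependent K F ∧
      ∃ deg : ℕ → ℕ, (∀ n e, IterDeg F n e ↔ e = deg n) ∧ (∀ n, deg n ≠ 0) ∧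
        (∃ C : ℕ, ∀ n, deg n ≤ C * (n + 1) ^ 16) ∧ (∃ C : ℕ, ∀ k, deg (2 ^ k) ≤ C * 16 ^ k) ∧
        (∃ C : ℕ, ∀ k, 1 ≤ k → 16 ^ k ≤ C * deg (2 ^ k) + C * 4 ^ k) := by
  classical
  obtain ⟨φ, hs, h1, h2⟩ := exists_phi K
  obtain ⟨F, d, hF, hdom, deg, hdeg, hup, hlo, hne⟩ := abstract_main (K := K) (N := 3)
    (by norm_num) φ
  refine ⟨F, d, hF, hdom, deg, hdeg, hne, ?_, ?_, ?_⟩
  · -- upper bound
    obtain ⟨MP, hMP⟩ := PB.exists (PP K)
    obtain ⟨MQ, hMQ⟩ := PB.exists (QQ K)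
    obtain ⟨Ms, hMs⟩ := PB.exists (sg K)
    obtain ⟨cs, hcs⟩ := Bd.exists (ss K)
    set M0 := MP + MQ + Ms with hM0
    refine ⟨3 * (512 * 65536 * M0 + cs), fun n => ?_⟩
    set B := (4 * (n + 1) ^ 2) ^ 8 * M0 with hB
    have b0 : 1 ≤ (4 * (n + 1) ^ 2) ^ 8 := Nat.one_le_pow _ _ (by positivity)
    have bM : M0 ≤ B := by
      rw [hB]; nlinarith
    have bn : (2 * n + 1) ^ 8 * M0 ≤ B :=
      Nat.mul_le_mul_right M0 (Nat.pow_le_pow_left (by nlinarith) 8)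
    have b2n : (2 * (2 * n) + 1) ^ 8 * M0 ≤ B :=
      Nat.mul_le_mul_right M0 (Nat.pow_le_pow_left (by nlinarith) 8)
    have bnn : (2 * n ^ 2 + 1) ^ 8 * M0 ≤ B :=
      Nat.mul_le_mul_right M0 (Nat.pow_le_pow_left (by
        have : 4 * (n + 1) ^ 2 = 4 * n ^ 2 + 8 * n + 4 := by ring
        omega) 8)
    have hMP' := hMP.mono (M' := M0) (by omega)
    have hMQ' := hMQ.mono (M' := M0) (by omega)
    have hMs' := hMs.mono (M' := M0) (by omega)
    have u1 : PB (PP K + (2 * n) • sg K) (16 * B) :=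
      (hMP'.mono bM).add ((hMs'.nsmul (2 * n)).mono b2n)
    have u2 : PB (QQ K + n • PP K + n ^ 2 • sg K) (16 * (16 * B)) := by
      refine PB.add ((hMQ'.mono bM).add ((hMP'.nsmul n).mono bn)) ?_
      exact ((hMs'.nsmul (n ^ 2)).mono bnn).mono (by omega)
    have hd := hup n _ (coord_bound φ hs h1 h2 hcs n (16 * (16 * B)) (u1.mono (by omega)) u2)
    refine hd.trans ?_
    have hBe : B = 65536 * (n + 1) ^ 16 * M0 := by
      rw [hB]; ring
    rw [hBe]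
    have b1 : 1 ≤ (n + 1) ^ 16 := Nat.one_le_pow _ _ (by omega)
    nlinarith
  · -- upper bound for powers of two
    obtain ⟨MP, hMP⟩ := PB.exists (PP K)
    obtain ⟨MQ, hMQ⟩ := PB.exists (QQ K)
    obtain ⟨Ms, hMs⟩ := PB.exists (sg K)
    obtain ⟨cs, hcs⟩ := Bd.exists (ss K)
    obtain ⟨c2, hc2⟩ := Bd.exists (ss K ^ 2)
    set M0 := MP + MQ + Ms + c2 with hM0
    refine ⟨3 * (2 * (16 * (16 * (24 * M0))) + cs), fun k => ?_⟩
    have q1 : 1 ≤ 4 ^ k := Nat.one_le_pow _ _ (by norm_num)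
    have q2 : 4 ^ k ≤ 16 ^ k := Nat.pow_le_pow_left (by norm_num) k
    have key : ∀ {A : (Ws (ss K)).Point} {M : ℕ}, PB A M → ∀ j : ℕ,
        PB (2 ^ j • A) (6 * (4 ^ j * (M + c2))) := by
      intro A M hA j
      refine ((XB.two_pow hc2 hA.toXB j).toPB hc2).mono ?_
      have a1 : 4 ^ j * (M + c2) - c2 ≤ 4 ^ j * (M + c2) := Nat.sub_le _ _
      have a2 : c2 ≤ 4 ^ j * (M + c2) := by
        have : 1 ≤ 4 ^ j := Nat.one_le_pow _ _ (by norm_num)
        nlinarith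
      omega
    obtain ⟨B, hB⟩ : ∃ B, B = 24 * M0 * 16 ^ k := ⟨_, rfl⟩
    have bP : PB (PP K) B := hMP.mono (by rw [hB]; nlinarith)
    have bQ : PB (QQ K) B := hMQ.mono (by rw [hB]; nlinarith)
    have bnP : PB (2 ^ k • PP K) B := (key hMP k).mono (by
      rw [hB]
      have : 4 ^ k * (MP + c2) ≤ 16 ^ k * M0 := Nat.mul_le_mul q2 (by omega)
      nlinarith)
    have b2s : PB ((2 * 2 ^ k) • sg K) B := by
      have e : 2 * 2 ^ k = 2 ^ (k + 1) := by rw [pow_succ]; ring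
      rw [e]
      refine (key hMs (k + 1)).mono ?_
      rw [hB]
      have : 4 ^ k * (Ms + c2) ≤ 16 ^ k * M0 := Nat.mul_le_mul q2 (by omega)
      rw [pow_succ]
      nlinarith
    have bns : PB ((2 ^ k) ^ 2 • sg K) B := by
      have e : (2 ^ k) ^ 2 = 2 ^ (2 * k) := by rw [← pow_mul]; congr 1; ring
      rw [e]
      refine (key hMs (2 * k)).mono ?_
      have e2 : 4 ^ (2 * k) = 16 ^ k := by rw [pow_mul]; norm_num
      rw [hB, e2]
      have : 16 ^ k * (Ms + c2) ≤ 16 ^ k * M0 := Nat.mul_le_mul_left _ (by omega)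
      nlinarith
    have u1 : PB (PP K + (2 * 2 ^ k) • sg K) (16 * B) := bP.add b2s
    have u2 : PB (QQ K + 2 ^ k • PP K + (2 ^ k) ^ 2 • sg K) (16 * (16 * B)) :=
      (bQ.add bnP).add (bns.mono (by omega))
    have hd := hup (2 ^ k) _ (coord_bound φ hs h1 h2 hcs (2 ^ k) (16 * (16 * B))
      (u1.mono (by omega)) u2)
    refine hd.trans ?_
    rw [hB]
    have q3 : 1 ≤ 16 ^ k := Nat.one_le_pow _ _ (by norm_num)
    nlinarith
  · -- lower bound
    obtain ⟨MP, hMP⟩ := PB.exists (PP K)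
    obtain ⟨MQ, hMQ⟩ := PB.exists (QQ K)
    obtain ⟨c2, hc2⟩ := Bd.exists (ss K ^ 2)
    obtain ⟨Cx, hCx⟩ := Bd.map (x2 K)
    obtain ⟨Cy, hCy⟩ := Bd.map (y2 K)
    set R := 6 * (MP + MQ + c2) with hR
    set C2 := Cx + Cy with hC2
    refine ⟨384 * (C2 + 16 * R), fun k hk => ?_⟩
    obtain ⟨j, rfl⟩ : ∃ j, k = j + 1 := ⟨k - 1, by omega⟩
    obtain ⟨n, hn⟩ : ∃ n, n = 2 ^ (j + 1) := ⟨_, rfl⟩
    rw [← hn]
    have q1 : 1 ≤ 4 ^ (j + 1) := Nat.one_le_pow _ _ (by norm_num)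
    obtain ⟨_, ⟨g2, e2⟩⟩ := iter_points φ hs h1 h2 n
    have hQn : PB (QQ K + n • PP K + n ^ 2 • sg K) (C2 * deg n) := by
      rw [e2]
      refine Or.inr ⟨_, _, _, rfl, (hCx (φ ^ n) (deg n) (hlo n)).mono ?_,
        (hCy (φ ^ n) (deg n) (hlo n)).mono ?_⟩
      · exact Nat.mul_le_mul_right _ (by omega)
      · exact Nat.mul_le_mul_right _ (by omega)
    have hnP : PB (n • PP K) (R * 4 ^ (j + 1)) := by
      rw [hn]
      refine ((XB.two_pow hc2 (hMP.toXB) (j + 1)).toPB hc2).mono ?_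
      have a1 : 4 ^ (j + 1) * (MP + c2) - c2 ≤ 4 ^ (j + 1) * (MP + c2) := Nat.sub_le _ _
      have a2 : c2 ≤ 4 ^ (j + 1) * c2 := by nlinarith
      calc 5 * (4 ^ (j + 1) * (MP + c2) - c2) + c2
          ≤ 5 * (4 ^ (j + 1) * (MP + c2)) + 4 ^ (j + 1) * c2 := by omega
        _ ≤ R * 4 ^ (j + 1) := by
            rw [hR]
            nlinarith [Nat.zero_le (4 ^ (j + 1) * MQ), Nat.zero_le (4 ^ (j + 1) * MP)]
    have hQ' : PB (QQ K) (R * 4 ^ (j + 1)) := by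
      refine hMQ.mono ?_
      rw [hR]; nlinarith
    have hn2 : PB (n ^ 2 • sg K) (16 * (C2 * deg n + 16 * (R * 4 ^ (j + 1)))) := by
      have h3 := PB.add (hQn.mono (M' := C2 * deg n + 16 * (R * 4 ^ (j + 1))) (by omega))
        ((PB.add hQ' hnP).neg.mono (M' := C2 * deg n + 16 * (R * 4 ^ (j + 1))) (by omega))
      have h4 : QQ K + n • PP K + n ^ 2 • sg K + -(QQ K + n • PP K) = n ^ 2 • sg K := by abel
      rwa [h4] at h3
    have hn2' : n ^ 2 = 2 ^ (2 * j + 2) := by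
      rw [hn, ← pow_mul]; congr 1; ring
    obtain ⟨p, q, h, a, hpq, hp, hq, hq0, ha, hlc, hh, y, hy, hP⟩ := sigma_x (K := K) (2 * j)
    rw [hn2', hP] at hn2
    have hBd : Bd (Polynomial.aeval (ss K ^ 2) p / Polynomial.aeval (ss K ^ 2) q)
        (16 * (C2 * deg n + 16 * (R * 4 ^ (j + 1)))) := by
      rcases hn2 with h0 | ⟨x, y, h, h0, hx, hy⟩
      · exact absurd h0 (Point.some_ne_zero _)
      · rw [Point.some.injEq] at h0
        rw [h0.1]
        exact hx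
    have hp0 : p ≠ 0 := by
      rintro rfl
      rw [Polynomial.natDegree_zero] at hp
      have : 0 < 4 ^ (2 * j) := by positivity
      omega
    have hfin := lower hpq hp hq hp0 hq0 hBd
    have h16 : (16 : ℕ) ^ (j + 1) = 16 * 4 ^ (2 * j) := by
      rw [pow_succ, pow_mul]; norm_num; ring
    rw [h16]
    have r1 : C2 * deg n ≤ (C2 + 16 * R) * deg n := Nat.mul_le_mul_right _ (by omega)
    have r2 : 16 * (R * 4 ^ (j + 1)) ≤ (C2 + 16 * R) * 4 ^ (j + 1) := by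
      nlinarith [Nat.zero_le (C2 * 4 ^ (j + 1))]
    nlinarith

end Pool.Agent.Run7.h942.DG
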