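import Pool.Agent.Run7.h942.DG.Red

/-! Homogenisation, dehomogenisation, iterates and field endomorphisms. -/

namespace Pool.Agent.Run7.h942.DG

open MvPolynomial

variable {K : Type*} [Field K]

theorem aeval_scale {σ S : Type*} [Fintype σ] [CommRing S] [Algebra K S] {p : MvPolynomial σ K}
    {d : ℕ} (hp : p.IsHomogeneous d) (c : S) (f : σ → S) :
    aeval (fun j => c * f j) p = c ^ d * aeval f p := by
  rw [aeval_def, aeval_def, eval₂_eq', eval₂_eq', Finset.mul_sum]
  refine Finset.sum_congr rfl fun m hm => ?_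
  have h1 : ∑ j, m j = d := by
    have := hp.degree_eq_sum_deg_support hm
    rw [this]
    exact (Finset.sum_subset (Finset.subset_univ _) fun j _ hj => by simpa using hj).symm
  simp only [mul_pow]
  rw [Finset.prod_mul_distrib, Finset.prod_pow_eq_pow_sum, h1]
  ring

variable {N : ℕ}

/-- dehomogenisation `X_0 ↦ 1` -/
noncomputable def dh : MvPolynomial (Fin (N + 1)) K →ₐ[K] MvPolynomial (Fin N) K :=
  aeval (Fin.cons 1 X)

theorem dh_zero : dh (X 0 : MvPolynomial (Fin (N + 1)) K) = 1 := by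
  simp [dh]

theorem dh_succ (i : Fin N) : dh (X i.succ : MvPolynomial (Fin (N + 1)) K) = X i := by
  simp [dh]

theorem dh_inj {p : MvPolynomial (Fin (N + 1)) K} {d : ℕ} (hp : p.IsHomogeneous d)
    (h : dh p = 0) : p = 0 := by
  let Q := FractionRing (MvPolynomial (Fin (N + 1)) K)
  let x : Fin (N + 1) → Q := fun j => algebraMap (MvPolynomial (Fin (N + 1)) K) Q (X j)
  have hx0 : x 0 ≠ 0 := by
    simp only [x]
    rw [Ne, FaithfulSMul.algebraMap_eq_zero_iff]
    exact X_ne_zero 0
  let ψ : MvPolynomial (Fin N) K →ₐ[K] Q := aeval (fun i => (x 0)⁻¹ * x i.succ)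
  have h1 : ψ.comp dh = aeval (fun j => (x 0)⁻¹ * x j) := by
    apply MvPolynomial.algHom_ext
    intro j
    refine Fin.cases ?_ (fun i => ?_) j
    · rw [AlgHom.comp_apply, dh_zero, map_one, aeval_X, inv_mul_cancel₀ hx0]
    · rw [AlgHom.comp_apply, dh_succ, aeval_X, aeval_X]
  have h2 : aeval (fun j => (x 0)⁻¹ * x j) p = 0 := by
    rw [← h1, AlgHom.comp_apply, h, map_zero]
  rw [aeval_scale hp] at h2
  have h3 : aeval x p = 0 := by
    rcases mul_eq_zero.mp h2 with h4 | h4
    · exact absurd h4 (pow_ne_zero _ (inv_ne_zero hx0))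
    · exact h4
  have h5 : aeval x p = algebraMap _ Q p := by
    have : (aeval x : MvPolynomial (Fin (N + 1)) K →ₐ[K] Q) =
        IsScalarTower.toAlgHom K (MvPolynomial (Fin (N + 1)) K) Q := by
      apply MvPolynomial.algHom_ext
      intro j
      simp [x]
    rw [this]
    rfl
  rw [h5] at h3
  exact (FaithfulSMul.algebraMap_eq_zero_iff _ Q).mp h3

theorem exists_hom (g : MvPolynomial (Fin N) K) (D : ℕ) (hD : g.totalDegree ≤ D) :
    ∃ p : MvPolynomial (Fin (N + 1)) K, p.IsHomogeneous D ∧ dh p = g := by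
  refine ⟨∑ m ∈ g.support, C (coeff m g) * (X 0 ^ (D - ∑ i, m i) * ∏ i, X (Fin.succ i) ^ m i),
    ?_, ?_⟩
  · refine IsHomogeneous.sum _ _ _ fun m hm => ?_
    have h1 : ∑ i, m i ≤ D := by
      have := le_totalDegree hm
      rw [Finsupp.sum_fintype _ _ (fun _ => rfl)] at this
      omega
    have h2 : (X (0 : Fin (N + 1)) ^ (D - ∑ i, m i) : MvPolynomial (Fin (N + 1)) K).IsHomogeneous
        (D - ∑ i, m i) := isHomogeneous_X_pow _ _
    have h3 : (∏ i, X (Fin.succ i) ^ m i : MvPolynomial (Fin (N + 1)) K).IsHomogeneous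
        (∑ i, m i) := by
      refine IsHomogeneous.prod _ _ _ fun i _ => isHomogeneous_X_pow _ _
    have h4 := (h2.mul h3).C_mul (coeff m g)
    have h5 : D - ∑ i, m i + ∑ i, m i = D := by omega
    rwa [h5] at h4
  · conv_rhs => rw [g.as_sum]
    rw [map_sum]
    refine Finset.sum_congr rfl fun m _ => ?_
    rw [map_mul, map_mul, map_pow, dh_zero, one_pow, one_mul, map_prod, monomial_eq,
      Finsupp.prod_fintype _ _ (fun i => pow_zero _)]
    simp only [map_pow, dh_succ]
    congr 1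
    exact (dh (K := K) (N := N)).commutes _

theorem totalDegree_dh_le {p : MvPolynomial (Fin (N + 1)) K} {d : ℕ} (hp : p.IsHomogeneous d) :
    (dh p).totalDegree ≤ d := by
  rw [p.as_sum, map_sum]
  refine totalDegree_finsetSum_le fun m hm => ?_
  have h1 : ∑ j, m j = d := by
    have := hp.degree_eq_sum_deg_support hm
    rw [this]
    exact (Finset.sum_subset (Finset.subset_univ _) fun j _ hj => by simpa using hj).symm
  rw [Fin.sum_univ_succ] at h1
  have h2 : dh (monomial m (coeff m p)) = C (coeff m p) * ∏ i : Fin N, X i ^ m i.succ := by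
    rw [monomial_eq, Finsupp.prod_fintype _ _ (fun i => pow_zero _), map_mul, map_prod]
    rw [Fin.prod_univ_succ]
    simp only [map_pow, dh_succ, dh_zero, one_pow, one_mul]
    congr 1
    exact (dh (K := K) (N := N)).commutes _
  rw [h2]
  refine (totalDegree_mul _ _).trans ?_
  rw [totalDegree_C, zero_add]
  refine (totalDegree_finsetProd _ _).trans ?_
  calc ∑ i, (X i ^ m i.succ : MvPolynomial (Fin N) K).totalDegree
      ≤ ∑ i : Fin N, m i.succ := Finset.sum_le_sum fun i _ => by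
        rw [totalDegree_X_pow]
    _ ≤ d := by omega

theorem reduce_homog {H : Fin (N + 1) → MvPolynomial (Fin (N + 1)) K} {D : ℕ}
    (hH : ∀ i, (H i).IsHomogeneous D) (h0 : ∃ i, H i ≠ 0) :
    ∃ (h : MvPolynomial (Fin (N + 1)) K) (G : Fin (N + 1) → MvPolynomial (Fin (N + 1)) K)
      (d : ℕ), h ≠ 0 ∧ IsRatMap G d ∧ (∀ i, H i = h * G i) ∧ d ≤ D := by
  obtain ⟨h, G, hh, hHG, hG⟩ := exists_reduced H h0
  obtain ⟨i₀, hi₀⟩ := h0
  have hc : ∃ e, e ≤ D ∧ h.IsHomogeneous e := by
    have := hH i₀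
    rw [hHG i₀, mul_comm] at this
    refine factor_homog this ?_
    rw [mul_comm, ← hHG i₀]
    exact hi₀
  obtain ⟨e, heD, he⟩ := hc
  refine ⟨h, G, D - e, hh, ⟨fun i => ?_, hG⟩, hHG, Nat.sub_le _ _⟩
  by_cases hGi : G i = 0
  · rw [hGi]; exact isHomogeneous_zero _ _ _
  · have h1 : h * G i ≠ 0 := mul_ne_zero hh hGi
    have h2 := hH i
    rw [hHG i] at h2
    obtain ⟨k, hk, hkh⟩ := factor_homog h2 h1
    have h3 := (he.mul hkh).inj_right h2 h1
    have : k = D - e := by omega
    rwa [← this]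

/-- The affine coordinates `z_i`. -/
noncomputable def zc (K : Type*) [Field K] (N : ℕ) (i : Fin N) :
    FractionRing (MvPolynomial (Fin N) K) :=
  algebraMap (MvPolynomial (Fin N) K) _ (X i)

/-- the tuple `G` represents the point `[1 : w]`. -/
def Rep (G : Fin (N + 1) → MvPolynomial (Fin (N + 1)) K)
    (w : Fin N → FractionRing (MvPolynomial (Fin N) K)) : Prop :=
  dh (G 0) ≠ 0 ∧ ∀ i : Fin N, algebraMap (MvPolynomial (Fin N) K)
    (FractionRing (MvPolynomial (Fin N) K)) (dh (G i.succ)) =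
      w i * algebraMap (MvPolynomial (Fin N) K) (FractionRing (MvPolynomial (Fin N) K)) (dh (G 0))

/-- `a` is a quotient of two polynomials of total degree at most `M` -/
def Bd (a : FractionRing (MvPolynomial (Fin N) K)) (M : ℕ) : Prop :=
  ∃ g h : MvPolynomial (Fin N) K, h ≠ 0 ∧ g.totalDegree ≤ M ∧ h.totalDegree ≤ M ∧
    a = algebraMap _ _ g / algebraMap _ _ h

theorem exists_rep (w : Fin N → FractionRing (MvPolynomial (Fin N) K)) (M : ℕ)
    (hw : ∀ i, Bd (w i) M) :
    ∃ (G : Fin (N + 1) → MvPolynomial (Fin (N + 1)) K) (d : ℕ), IsRatMap G d ∧ Rep G w ∧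
      d ≤ N * M := by
  classical
  choose g h hh hg hhd hwe using hw
  let L := FractionRing (MvPolynomial (Fin N) K)
  have hP : (∏ j, h j).totalDegree ≤ N * M := by
    refine (totalDegree_finsetProd _ _).trans ?_
    calc ∑ j, (h j).totalDegree ≤ ∑ _j : Fin N, M := Finset.sum_le_sum fun j _ => hhd j
      _ = N * M := by simp
  have hQ : ∀ i, (g i * ∏ j ∈ Finset.univ.erase i, h j).totalDegree ≤ N * M := by
    intro i
    refine (totalDegree_mul _ _).trans ?_
    have h1 : (∏ j ∈ Finset.univ.erase i, h j).totalDegree ≤ ∑ _j ∈ Finset.univ.erase i, M :=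
      (totalDegree_finsetProd _ _).trans (Finset.sum_le_sum fun j _ => hhd j)
    have h2 : M + ∑ _j ∈ Finset.univ.erase i, M = ∑ _j : Fin N, M :=
      Finset.add_sum_erase Finset.univ (fun _ => M) (Finset.mem_univ i)
    have h3 : ∑ _j : Fin N, M = N * M := by simp
    have h4 := hg i
    omega
  obtain ⟨p0, hp0, hp0'⟩ := exists_hom _ _ hP
  choose p hp hp' using fun i => exists_hom _ _ (hQ i)
  let H : Fin (N + 1) → MvPolynomial (Fin (N + 1)) K := Fin.cons p0 p
  have hH : ∀ i, (H i).IsHomogeneous (N * M) := by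
    intro i
    refine Fin.cases ?_ (fun j => ?_) i
    · exact hp0
    · exact hp j
  have hprod : (∏ j, h j) ≠ 0 := Finset.prod_ne_zero_iff.mpr fun j _ => hh j
  have hH0 : H 0 ≠ 0 := by
    intro h0
    have : p0 = 0 := h0
    rw [this, map_zero] at hp0'
    exact hprod hp0'.symm
  obtain ⟨c, G, d, hc, hG, hHG, hd⟩ := reduce_homog hH ⟨0, hH0⟩
  have hdc : dh c ≠ 0 := by
    intro h0
    have h1 : dh (H 0) = 0 := by rw [hHG 0, map_mul, h0, zero_mul]
    have h2 : dh (H 0) = ∏ j, h j := hp0'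
    rw [h1] at h2
    exact hprod h2.symm
  refine ⟨G, d, hG, ⟨?_, fun i => ?_⟩, hd⟩
  · intro h0
    have h1 : dh (H 0) = 0 := by rw [hHG 0, map_mul, h0, mul_zero]
    have h2 : dh (H 0) = ∏ j, h j := hp0'
    rw [h1] at h2
    exact hprod h2.symm
  · have e1 : dh c * dh (G i.succ) = g i * ∏ j ∈ Finset.univ.erase i, h j := by
      rw [← map_mul, ← hHG]
      exact hp' i
    have e2 : dh c * dh (G 0) = ∏ j, h j := by
      rw [← map_mul, ← hHG]
      exact hp0'
    have e3 : h i * ∏ j ∈ Finset.univ.erase i, h j = ∏ j, h j :=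
      Finset.mul_prod_erase _ _ (Finset.mem_univ i)
    have hhi : algebraMap (MvPolynomial (Fin N) K) L (h i) ≠ 0 := by
      rw [Ne, FaithfulSMul.algebraMap_eq_zero_iff]; exact hh i
    have hdc' : algebraMap (MvPolynomial (Fin N) K) L (dh c) ≠ 0 := by
      rw [Ne, FaithfulSMul.algebraMap_eq_zero_iff]; exact hdc
    have e4 : dh c * (h i * dh (G i.succ)) = dh c * (g i * dh (G 0)) := by
      calc dh c * (h i * dh (G i.succ)) = h i * (dh c * dh (G i.succ)) := by ring
        _ = g i * (h i * ∏ j ∈ Finset.univ.erase i, h j) := by rw [e1]; ring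
        _ = g i * (dh c * dh (G 0)) := by rw [e3, e2]
        _ = dh c * (g i * dh (G 0)) := by ring
    have e5 := mul_left_cancel₀ hdc e4
    have e6 := congrArg (algebraMap (MvPolynomial (Fin N) K) L) e5
    rw [map_mul, map_mul] at e6
    rw [hwe i, div_mul_eq_mul_div, eq_div_iff hhi, mul_comm]
    exact e6

/-- minimality and uniqueness of the reduced representative -/
theorem rep_unique {w : Fin N → FractionRing (MvPolynomial (Fin N) K)}
    {G H : Fin (N + 1) → MvPolynomial (Fin (N + 1)) K} {d D : ℕ} (hG : IsRatMap G d)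
    (hGw : Rep G w) (hH : ∀ i, (H i).IsHomogeneous D) (hHw : Rep H w) :
    ∃ h : MvPolynomial (Fin (N + 1)) K, h ≠ 0 ∧ ∀ i, H i = h * G i := by
  let L := FractionRing (MvPolynomial (Fin N) K)
  have hinj : Function.Injective (algebraMap (MvPolynomial (Fin N) K) L) :=
    FaithfulSMul.algebraMap_injective _ _
  have key : ∀ i j, G i * H j = G j * H i := by
    intro i j
    rw [← sub_eq_zero]
    refine dh_inj (d := d + D) (((hG.homog i).mul (hH j)).sub ((hG.homog j).mul (hH i))) ?_
    rw [map_sub, sub_eq_zero, map_mul, map_mul]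
    apply hinj
    rw [map_mul, map_mul]
    have a1 : ∀ i, ∃ u : L, algebraMap (MvPolynomial (Fin N) K) L (dh (G i)) =
        u * algebraMap (MvPolynomial (Fin N) K) L (dh (G 0)) ∧
        algebraMap (MvPolynomial (Fin N) K) L (dh (H i)) =
        u * algebraMap (MvPolynomial (Fin N) K) L (dh (H 0)) := by
      intro i
      refine Fin.cases ⟨1, by simp, by simp⟩ (fun k => ⟨w k, hGw.2 k, hHw.2 k⟩) i
    obtain ⟨u, hu1, hu2⟩ := a1 i
    obtain ⟨v, hv1, hv2⟩ := a1 j
    rw [hu1, hu2, hv1, hv2]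
    ring
  obtain ⟨h, hh⟩ := reduced_dvd G H hG.coprime key
  refine ⟨h, ?_, hh⟩
  rintro rfl
  apply hHw.1
  rw [hh 0, zero_mul, map_zero]

end Pool.Agent.Run7.h942.DG
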