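import Mathlib

/-! Transcendence degree facts for `K(z₁,z₂,z₃)`. -/

namespace Pool.Agent.Run7.h942.DG

open MvPolynomial Cardinal

section

variable {K : Type*} [Field K] {L : Type*} [Field L] [Algebra K L]

/-- the relative algebraic closure of `K(S)` in `L` -/
def cl (K : Type*) [Field K] {L : Type*} [Field L] [Algebra K L] (S : Set L) : Subfield L where
  carrier := {x | IsAlgebraic (Algebra.adjoin K S) x}
  mul_mem' := fun h1 h2 => IsAlgebraic.mul h1 h2
  one_mem' := isAlgebraic_one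
  add_mem' := fun h1 h2 => IsAlgebraic.add h1 h2
  zero_mem' := isAlgebraic_zero
  neg_mem' := fun h => IsAlgebraic.neg h
  inv_mem' := fun _ h => IsAlgebraic.inv_iff.mpr h

theorem mem_cl {S : Set L} {x : L} : x ∈ cl K S ↔ IsAlgebraic (Algebra.adjoin K S) x := Iff.rfl

theorem subset_cl {S : Set L} {x : L} (h : x ∈ S) : x ∈ cl K S :=
  isAlgebraic_algebraMap (⟨x, Algebra.subset_adjoin h⟩ : Algebra.adjoin K S)

theorem quartic_mem {S : Set L} {a₀ a₁ a₂ a₃ a₄ x : L} (h₀ : a₀ ∈ cl K S) (h₁ : a₁ ∈ cl K S)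
    (h₂ : a₂ ∈ cl K S) (h₃ : a₃ ∈ cl K S) (h₄ : a₄ ∈ cl K S) (h : a₀ ≠ 0)
    (hx : a₄ * x ^ 4 + a₃ * x ^ 3 + a₂ * x ^ 2 + a₁ * x + a₀ = 0) : x ∈ cl K S := by
  let B := Subalgebra.algebraicClosure (Algebra.adjoin K S) L
  have hB : ∀ {y}, y ∈ cl K S → y ∈ B := fun {y} hy =>
    (Subalgebra.mem_algebraicClosure _ _).mpr hy
  have h1 : IsAlgebraic B x := by
    refine ⟨Polynomial.C ⟨a₄, hB h₄⟩ * Polynomial.X ^ 4 + Polynomial.C ⟨a₃, hB h₃⟩ * Polynomial.X ^ 3
      + Polynomial.C ⟨a₂, hB h₂⟩ * Polynomial.X ^ 2 + Polynomial.C ⟨a₁, hB h₁⟩ * Polynomial.X +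
      Polynomial.C ⟨a₀, hB h₀⟩, ?_, ?_⟩
    · intro h0
      have h2 := congrArg (fun p => Polynomial.coeff p 0) h0
      simp [Polynomial.coeff_X, Polynomial.coeff_X_pow] at h2
      exact h (congrArg Subtype.val h2)
    · simp only [map_add, map_mul, map_pow, Polynomial.aeval_C, Polynomial.aeval_X]
      exact hx
  exact h1.restrictScalars (Algebra.adjoin K S)

theorem sqrt_mem {S : Set L} {y : L} (h : y ^ 2 ∈ cl K S) : y ∈ cl K S := by
  by_cases hy : y = 0
  · rw [hy]; exact zero_mem _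
  · refine quartic_mem (a₀ := - y ^ 2) (a₁ := 0) (a₂ := 1) (a₃ := 0) (a₄ := 0) (neg_mem h)
      (zero_mem _) (one_mem _) (zero_mem _) (zero_mem _) (neg_ne_zero.mpr (pow_ne_zero 2 hy)) ?_
    ring

end

section

variable (K : Type*) [Field K]

theorem tb : IsTranscendenceBasis K (fun i : Fin 3 => algebraMap (MvPolynomial (Fin 3) K)
    (FractionRing (MvPolynomial (Fin 3) K)) (X i)) := by
  have h := IsTranscendenceBasis.mvPolynomial (Fin 3) K
  have : Algebra.IsAlgebraic (MvPolynomial (Fin 3) K) (FractionRing (MvPolynomial (Fin 3) K)) :=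
    (IsFractionRing.comap_isAlgebraic_iff (A := MvPolynomial (Fin 3) K)
      (K := FractionRing (MvPolynomial (Fin 3) K))
      (C := FractionRing (MvPolynomial (Fin 3) K))).mpr inferInstance
  exact h.algebraMap_comp (A := FractionRing (MvPolynomial (Fin 3) K))

theorem trdeg_three : Algebra.trdeg K (FractionRing (MvPolynomial (Fin 3) K)) = 3 := by
  have h := (tb K).lift_cardinalMk_eq_trdeg
  simp at h
  exact h.symm

variable {K}

/-- the three-dimensional field is not algebraic over a subfield generated by two elements -/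
theorem cl_pair_ne (u v : FractionRing (MvPolynomial (Fin 3) K))
    (h : ∀ x, x ∈ cl K ({u, v} : Set (FractionRing (MvPolynomial (Fin 3) K)))) : False := by
  have : Algebra.IsAlgebraic (Algebra.adjoin K
      ({u, v} : Set (FractionRing (MvPolynomial (Fin 3) K))))
      (FractionRing (MvPolynomial (Fin 3) K)) := ⟨h⟩
  have h1 := Algebra.IsAlgebraic.trdeg_le_cardinalMk K
    ({u, v} : Set (FractionRing (MvPolynomial (Fin 3) K)))
  rw [trdeg_three] at h1
  have h2 : Cardinal.mk ↥({u, v} : Set (FractionRing (MvPolynomial (Fin 3) K))) ≤ 2 := by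
    have := Cardinal.mk_insert_le (s := ({v} : Set (FractionRing (MvPolynomial (Fin 3) K)))) (a := u)
    rw [Cardinal.mk_singleton] at this
    refine this.trans (le_of_eq ?_)
    norm_num
  have h3 := h1.trans h2
  norm_num at h3

theorem algInd_of_cl (w : Fin 3 → FractionRing (MvPolynomial (Fin 3) K))
    (h : ∀ x, x ∈ cl K (Set.range w)) : AlgebraicIndependent K w := by
  have : Algebra.IsAlgebraic (Algebra.adjoin K (Set.range w))
      (FractionRing (MvPolynomial (Fin 3) K)) := ⟨h⟩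
  refine (Algebra.IsAlgebraic.isTranscendenceBasis_of_lift_le_trdeg_of_finite K w ?_).1
  rw [trdeg_three]
  simp

end

end Pool.Agent.Run7.h942.DG
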