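import Pool.Agent.Run7.h942.DG.Curve
import Pool.Agent.Run7.h942.DG.Tr
import Pool.Agent.Run7.h942.DG.Hom

/-! The endomorphism `φ` of `K(z₁,z₂,z₃)`. -/

namespace Pool.Agent.Run7.h942.DG

open MvPolynomial WeierstrassCurve WeierstrassCurve.Affine

section alg

variable {F : Type*} [Field F]

/-- `r₂` as a function of `(m₁,m₂,κ)` -/
def r2f (a b c : F) : F := (a ^ 2 - 1 - c ^ 3 * (b ^ 2 - 1)) / (2 * c * (c ^ 2 * b - a))

/-- `s` as a function of `(m₁,m₂,κ)` -/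
def sf (a b c : F) : F := (b ^ 2 - 1 + 2 * b * r2f a b c) / r2f a b c ^ 3

theorem fwd [CharZero F] {a b c : F} (hc : c ≠ 0) (hd : c ^ 2 * b - a ≠ 0)
    (hn : a ^ 2 - 1 - c ^ 3 * (b ^ 2 - 1) ≠ 0) (hm : b * (a ^ 2 - 1) - c * a * (b ^ 2 - 1) ≠ 0) :
    sf a b c ≠ 0 ∧ r2f a b c ≠ 0 ∧
    (sf a b c * r2f a b c + b * sf a b c) ^ 2 = (sf a b c * r2f a b c) ^ 3 +
      (sf a b c * r2f a b c) ^ 2 + sf a b c ^ 2 ∧
    (c * (sf a b c * r2f a b c) + a * sf a b c) ^ 2 = (c * (sf a b c * r2f a b c)) ^ 3 +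
      (c * (sf a b c * r2f a b c)) ^ 2 + sf a b c ^ 2 := by
  have h2 : (2 : F) ≠ 0 := two_ne_zero
  have hr : r2f a b c ≠ 0 := div_ne_zero hn (mul_ne_zero (mul_ne_zero h2 hc) hd)
  have hr2 : r2f a b c * (2 * c * (c ^ 2 * b - a)) = a ^ 2 - 1 - c ^ 3 * (b ^ 2 - 1) := by
    rw [r2f, div_mul_cancel₀ _ (mul_ne_zero (mul_ne_zero h2 hc) hd)]
  have hs3 : sf a b c * r2f a b c ^ 3 = b ^ 2 - 1 + 2 * b * r2f a b c := by
    rw [sf, div_mul_cancel₀ _ (pow_ne_zero 3 hr)]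
  have hsn : b ^ 2 - 1 + 2 * b * r2f a b c ≠ 0 := by
    intro h0
    apply hm
    have : c * (c ^ 2 * b - a) * (b ^ 2 - 1 + 2 * b * r2f a b c) =
        b * (a ^ 2 - 1) - c * a * (b ^ 2 - 1) := by
      linear_combination b * hr2
    rw [h0, mul_zero] at this
    exact this.symm
  have hs : sf a b c ≠ 0 := by
    rw [sf]; exact div_ne_zero hsn (pow_ne_zero 3 hr)
  refine ⟨hs, hr, ?_, ?_⟩
  · linear_combination (-(sf a b c) ^ 2) * hs3
  · linear_combination (-(sf a b c) ^ 2 * c ^ 3) * hs3 - (sf a b c) ^ 2 * hr2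

theorem recon [CharZero F] {s x₁ y₁ x₂ y₂ : F} (hs : s ≠ 0) (h₁ : x₁ ≠ 0) (h₂ : x₂ ≠ 0)
    (e₁ : y₁ ^ 2 = x₁ ^ 3 + x₁ ^ 2 + s ^ 2) (e₂ : y₂ ^ 2 = x₂ ^ 3 + x₂ ^ 2 + s ^ 2)
    (hd : (x₁ / x₂) ^ 2 * ((y₂ - x₂) / s) - (y₁ - x₁) / s ≠ 0) :
    r2f ((y₁ - x₁) / s) ((y₂ - x₂) / s) (x₁ / x₂) = x₂ / s ∧
    sf ((y₁ - x₁) / s) ((y₂ - x₂) / s) (x₁ / x₂) = s := by
  have hh2 : (2 : F) ≠ 0 := two_ne_zero
  have hc : x₁ / x₂ ≠ 0 := div_ne_zero h₁ h₂
  have hr : r2f ((y₁ - x₁) / s) ((y₂ - x₂) / s) (x₁ / x₂) = x₂ / s := by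
    rw [r2f, div_eq_iff (mul_ne_zero (mul_ne_zero hh2 hc) hd)]
    field_simp
    linear_combination x₂ ^ 3 * e₁ - x₁ ^ 3 * e₂
  refine ⟨hr, ?_⟩
  rw [sf, hr, div_eq_iff (pow_ne_zero 3 (div_ne_zero h₂ hs))]
  field_simp
  linear_combination e₂

theorem map_r2f {G : Type*} [Field G] (φ : F →+* G) (a b c : F) :
    φ (r2f a b c) = r2f (φ a) (φ b) (φ c) := by
  simp only [r2f, map_div₀, map_sub, map_mul, map_pow, map_one, map_ofNat]

theorem map_sf {G : Type*} [Field G] (φ : F →+* G) (a b c : F) :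
    φ (sf a b c) = sf (φ a) (φ b) (φ c) := by
  simp only [sf, map_div₀, map_sub, map_mul, map_pow, map_one, map_add, map_ofNat, map_r2f]

end alg

variable {K : Type*} [Field K]

/-- the field `K(z₁,z₂,z₃)` -/
abbrev LL (K : Type*) [Field K] := FractionRing (MvPolynomial (Fin 3) K)

theorem gen_subfield (k : Subfield (LL K)) (hK : ∀ c : K, algebraMap K (LL K) c ∈ k)
    (hz : ∀ i, zc K 3 i ∈ k) (x : LL K) : x ∈ k := by
  have h1 : ∀ p : MvPolynomial (Fin 3) K, algebraMap (MvPolynomial (Fin 3) K) (LL K) p ∈ k := by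
    intro p
    induction p using MvPolynomial.induction_on with
    | C a =>
      have : algebraMap (MvPolynomial (Fin 3) K) (LL K) (C a) = algebraMap K (LL K) a := by
        rw [IsScalarTower.algebraMap_apply K (MvPolynomial (Fin 3) K)]
        rfl
      rw [this]
      exact hK a
    | add p q hp hq => rw [map_add]; exact add_mem hp hq
    | mul_X p i hp => rw [map_mul]; exact mul_mem hp (hz i)
  obtain ⟨g, h, hh, rfl⟩ := IsFractionRing.div_surjective (A := MvPolynomial (Fin 3) K) x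
  exact div_mem (h1 g) (h1 h)

theorem K_mem_cl (S : Set (LL K)) (c : K) : algebraMap K (LL K) c ∈ cl K S := by
  have : algebraMap K (LL K) c = algebraMap (Algebra.adjoin K S) (LL K)
    (algebraMap K (Algebra.adjoin K S) c) := rfl
  rw [mem_cl, this]
  exact isAlgebraic_algebraMap _

section

variable (K) [CharZero K]

/-- `m₁, m₂, κ` and the derived quantities -/
noncomputable def m1 : LL K := zc K 3 0
@[inherit_doc m1] noncomputable def m2 : LL K := zc K 3 1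
@[inherit_doc m1] noncomputable def kap : LL K := zc K 3 2
@[inherit_doc m1] noncomputable def ss : LL K := sf (m1 K) (m2 K) (kap K)
@[inherit_doc m1] noncomputable def rr : LL K := r2f (m1 K) (m2 K) (kap K)
@[inherit_doc m1] noncomputable def x2 : LL K := ss K * rr K
@[inherit_doc m1] noncomputable def x1 : LL K := kap K * x2 K
@[inherit_doc m1] noncomputable def y1 : LL K := x1 K + m1 K * ss K
@[inherit_doc m1] noncomputable def y2 : LL K := x2 K + m2 K * ss K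

instance : CharZero (LL K) := charZero_of_injective_algebraMap
  (FaithfulSMul.algebraMap_injective K (LL K))

omit [CharZero K] in
theorem poly_ne {p : MvPolynomial (Fin 3) K} (v : Fin 3 → K) (h : eval v p ≠ 0) :
    algebraMap (MvPolynomial (Fin 3) K) (LL K) p ≠ 0 := by
  rw [Ne, FaithfulSMul.algebraMap_eq_zero_iff]
  rintro rfl
  exact h (map_zero _)

theorem kap_ne : kap K ≠ 0 := by
  refine poly_ne K (p := X 2) ![1, 1, 1] ?_
  simp

theorem nd_ne : kap K ^ 2 * m2 K - m1 K ≠ 0 := by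
  have := poly_ne K (p := X 2 ^ 2 * X 1 - X 0) ![0, 1, 1] (by simp)
  rw [map_sub, map_mul, map_pow] at this
  exact this

theorem nn_ne : m1 K ^ 2 - 1 - kap K ^ 3 * (m2 K ^ 2 - 1) ≠ 0 := by
  have := poly_ne K (p := X 0 ^ 2 - 1 - X 2 ^ 3 * (X 1 ^ 2 - 1)) ![0, 0, 2] (by
    simp
    norm_num)
  rw [map_sub, map_sub, map_mul, map_sub, map_pow, map_pow, map_pow, map_one] at this
  exact this

theorem nm_ne : m2 K * (m1 K ^ 2 - 1) - kap K * m1 K * (m2 K ^ 2 - 1) ≠ 0 := by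
  have := poly_ne K (p := X 1 * (X 0 ^ 2 - 1) - X 2 * X 0 * (X 1 ^ 2 - 1)) ![2, 1, 1] (by
    simp
    norm_num)
  rw [map_sub, map_mul, map_sub, map_mul, map_mul, map_sub, map_pow, map_pow, map_one] at this
  exact this

theorem ss_ne : ss K ≠ 0 := (fwd (kap_ne K) (nd_ne K) (nn_ne K) (nm_ne K)).1

theorem rr_ne : rr K ≠ 0 := (fwd (kap_ne K) (nd_ne K) (nn_ne K) (nm_ne K)).2.1

theorem x2_ne : x2 K ≠ 0 := mul_ne_zero (ss_ne K) (rr_ne K)

theorem x1_ne : x1 K ≠ 0 := mul_ne_zero (kap_ne K) (x2_ne K)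

theorem e2 : y2 K ^ 2 = x2 K ^ 3 + x2 K ^ 2 + ss K ^ 2 :=
  (fwd (kap_ne K) (nd_ne K) (nn_ne K) (nm_ne K)).2.2.1

theorem e1 : y1 K ^ 2 = x1 K ^ 3 + x1 K ^ 2 + ss K ^ 2 :=
  (fwd (kap_ne K) (nd_ne K) (nn_ne K) (nm_ne K)).2.2.2

/-- the coordinates generate the field -/
theorem full_of_mem (k : Subfield (LL K)) (hK : ∀ c : K, algebraMap K (LL K) c ∈ k)
    (hs : ss K ∈ k) (h1 : x1 K ∈ k) (h1' : y1 K ∈ k) (h2 : x2 K ∈ k) (h2' : y2 K ∈ k)
    (x : LL K) : x ∈ k := by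
  refine gen_subfield k hK (fun i => ?_) x
  fin_cases i
  · have : m1 K = (y1 K - x1 K) / ss K := by
      rw [y1, eq_div_iff (ss_ne K)]; ring
    change m1 K ∈ k
    rw [this]
    exact div_mem (sub_mem h1' h1) hs
  · have : m2 K = (y2 K - x2 K) / ss K := by
      rw [y2, eq_div_iff (ss_ne K)]; ring
    change m2 K ∈ k
    rw [this]
    exact div_mem (sub_mem h2' h2) hs
  · have : kap K = x1 K / x2 K := by
      rw [x1, eq_div_iff (x2_ne K)]
    change kap K ∈ k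
    rw [this]
    exact div_mem h1 h2

theorem full_of_cl {S : Set (LL K)} (hs : ss K ∈ cl K S) (h1 : x1 K ∈ cl K S)
    (h2 : x2 K ∈ cl K S) (x : LL K) : x ∈ cl K S := by
  refine full_of_mem K _ (K_mem_cl S) hs h1 (sqrt_mem ?_) h2 (sqrt_mem ?_) x
  · rw [e1]; exact add_mem (add_mem (pow_mem h1 3) (pow_mem h1 2)) (pow_mem hs 2)
  · rw [e2]; exact add_mem (add_mem (pow_mem h2 3) (pow_mem h2 2)) (pow_mem hs 2)

theorem y1_ne : y1 K ≠ 0 := by
  intro h0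
  have h := e1 K
  rw [h0] at h
  refine cl_pair_ne (ss K) (x2 K) (full_of_cl K (subset_cl (by simp)) ?_ (subset_cl (by simp)))
  refine quartic_mem (a₄ := 0) (a₃ := 1) (a₂ := 1) (a₁ := 0) (a₀ := ss K ^ 2)
    (pow_mem (subset_cl (by simp)) 2) (zero_mem _) (one_mem _) (one_mem _) (zero_mem _)
    (pow_ne_zero 2 (ss_ne K)) ?_
  linear_combination -h

theorem y2_ne : y2 K ≠ 0 := by
  intro h0
  have h := e2 K
  rw [h0] at h
  refine cl_pair_ne (ss K) (x1 K) (full_of_cl K (subset_cl (by simp)) (subset_cl (by simp)) ?_)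
  refine quartic_mem (a₄ := 0) (a₃ := 1) (a₂ := 1) (a₁ := 0) (a₀ := ss K ^ 2)
    (pow_mem (subset_cl (by simp)) 2) (zero_mem _) (one_mem _) (one_mem _) (zero_mem _)
    (pow_ne_zero 2 (ss_ne K)) ?_
  linear_combination -h

/-- the generic points and the section -/
noncomputable def PP : (Ws (ss K)).Point := .some (x1 K) (y1 K) (nons (e1 K) (y1_ne K))
@[inherit_doc PP] noncomputable def QQ : (Ws (ss K)).Point :=
  .some (x2 K) (y2 K) (nons (e2 K) (y2_ne K))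
@[inherit_doc PP] noncomputable def sg : (Ws (ss K)).Point :=
  .some 0 (ss K) (nons (by ring) (ss_ne K))

variable [DecidableEq (LL K)]

theorem pts_full (k : Subfield (LL K)) (hK : ∀ c : K, algebraMap K (LL K) c ∈ k)
    (hs : ss K ∈ k) (hP : PP K ∈ ptSub (ss K) k) (hQ : QQ K ∈ ptSub (ss K) k) (x : LL K) :
    x ∈ k :=
  full_of_mem K k hK hs (mem_ptSub_some.mp hP).1 (mem_ptSub_some.mp hP).2
    (mem_ptSub_some.mp hQ).1 (mem_ptSub_some.mp hQ).2 x

theorem some_mem_cl {S : Set (LL K)} (hs : ss K ∈ cl K S) {x y : LL K}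
    {h : (Ws (ss K)).Nonsingular x y} (hx : x ∈ cl K S) :
    Point.some x y h ∈ ptSub (ss K) (cl K S) := by
  refine mem_ptSub_some.mpr ⟨hx, sqrt_mem ?_⟩
  rw [eqn h]
  exact add_mem (add_mem (pow_mem hx 3) (pow_mem hx 2)) (pow_mem hs 2)

theorem sg_mem (k : Subfield (LL K)) (hs : ss K ∈ k) : sg K ∈ ptSub (ss K) k :=
  mem_ptSub_some.mpr ⟨zero_mem _, hs⟩

/-- The endomorphism. -/
theorem exists_phi : ∃ (φ : LL K →ₐ[K] LL K) (hs : φ (ss K) = ss K),
    act (φ : LL K →+* LL K) hs (PP K) = PP K + 2 • sg K ∧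
    act (φ : LL K →+* LL K) hs (QQ K) = QQ K + PP K + sg K := by
  -- contradiction producers
  have cA : ∀ {S : Set (LL K)} (u v : LL K), S = {u, v} → ss K ∈ cl K S →
      PP K ∈ ptSub (ss K) (cl K S) → QQ K ∈ ptSub (ss K) (cl K S) → False := by
    intro S u v hS hs hP hQ
    subst hS
    exact cl_pair_ne u v (pts_full K _ (K_mem_cl _) hs hP hQ)
  -- the new points
  obtain ⟨P', hP'⟩ : ∃ P', P' = PP K + 2 • sg K := ⟨_, rfl⟩
  obtain ⟨Q', hQ'⟩ : ∃ Q', Q' = QQ K + PP K + sg K := ⟨_, rfl⟩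
  have hPP' : PP K = P' - 2 • sg K := by rw [hP']; abel
  have hQQ' : QQ K = Q' - PP K - sg K := by rw [hQ']; abel
  have hs2 : ∀ u : LL K, ss K ∈ cl K ({ss K, u} : Set (LL K)) := fun u => subset_cl (by simp)
  have hu2 : ∀ u : LL K, u ∈ cl K ({ss K, u} : Set (LL K)) := fun u => subset_cl (by simp)
  have cP : P' ∉ ptSub (ss K) (cl K ({ss K, x2 K} : Set (LL K))) := by
    intro h
    refine cA (ss K) (x2 K) rfl (hs2 _) ?_ (some_mem_cl K (hs2 _) (hu2 _))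
    rw [hPP']
    exact sub_mem h (nsmul_mem (sg_mem K _ (hs2 _)) 2)
  have cQ : Q' ∉ ptSub (ss K) (cl K ({ss K, x1 K} : Set (LL K))) := by
    intro h
    have h1 : PP K ∈ ptSub (ss K) (cl K ({ss K, x1 K} : Set (LL K))) :=
      some_mem_cl K (hs2 _) (hu2 _)
    refine cA (ss K) (x1 K) rfl (hs2 _) h1 ?_
    rw [hQQ']
    exact sub_mem (sub_mem h h1) (sg_mem K _ (hs2 _))
  rcases P' with _ | ⟨a₁, b₁, c₁⟩
  · exact absurd (zero_mem _) cP
  rcases Q' with _ | ⟨a₂, b₂, c₂⟩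
  · exact absurd (zero_mem _) cQ
  have ha₁ : a₁ ≠ 0 := by
    rintro rfl
    exact cP (some_mem_cl K (hs2 _) (zero_mem _))
  have ha₂ : a₂ ≠ 0 := by
    rintro rfl
    exact cQ (some_mem_cl K (hs2 _) (zero_mem _))
  have hs0 := ss_ne K
  have E1 := eqn c₁
  have E2 := eqn c₂
  have hnd : (a₁ / a₂) ^ 2 * ((b₂ - a₂) / ss K) - (b₁ - a₁) / ss K ≠ 0 := by
    intro h0
    have hS1 : Point.some a₁ b₁ c₁ ∈ ptSub (ss K) (cl K ({ss K, a₁} : Set (LL K))) :=
      some_mem_cl K (hs2 _) (hu2 _)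
    have hb₁ := (mem_ptSub_some.mp hS1).2
    have ha₁' := (mem_ptSub_some.mp hS1).1
    obtain ⟨c, hc⟩ : ∃ c, c = (b₁ - a₁) / a₁ ^ 2 := ⟨_, rfl⟩
    have hcm : c ∈ cl K ({ss K, a₁} : Set (LL K)) := by
      rw [hc]
      exact div_mem (sub_mem hb₁ ha₁') (pow_mem ha₁' 2)
    have hb₂ : b₂ = a₂ + c * a₂ ^ 2 := by
      rw [hc]
      field_simp at h0 ⊢
      linear_combination h0
    have ha₂' : a₂ ∈ cl K ({ss K, a₁} : Set (LL K)) := by
      refine quartic_mem (a₄ := c ^ 2) (a₃ := 2 * c - 1) (a₂ := 0) (a₁ := 0) (a₀ := - ss K ^ 2)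
        (neg_mem (pow_mem (hs2 _) 2)) (zero_mem _) (zero_mem _) (sub_mem (mul_mem ?_ hcm)
          (one_mem _)) (pow_mem hcm 2) (neg_ne_zero.mpr (pow_ne_zero 2 hs0)) ?_
      · exact_mod_cast natCast_mem (cl K ({ss K, a₁} : Set (LL K))) 2
      · rw [hb₂] at E2
        linear_combination E2
    have hS2 : Point.some a₂ b₂ c₂ ∈ ptSub (ss K) (cl K ({ss K, a₁} : Set (LL K))) :=
      some_mem_cl K (hs2 _) ha₂'
    have hPm : PP K ∈ ptSub (ss K) (cl K ({ss K, a₁} : Set (LL K))) := by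
      rw [hPP']
      exact sub_mem hS1 (nsmul_mem (sg_mem K _ (hs2 _)) 2)
    refine cA (ss K) a₁ rfl (hs2 _) hPm ?_
    rw [hQQ']
    exact sub_mem (sub_mem hS2 hPm) (sg_mem K _ (hs2 _))
  obtain ⟨hr, hsf⟩ := recon hs0 ha₁ ha₂ E1 E2 hnd
  -- algebraic independence
  let w : Fin 3 → LL K := ![(b₁ - a₁) / ss K, (b₂ - a₂) / ss K, a₁ / a₂]
  have hw : AlgebraicIndependent K w := by
    apply algInd_of_cl
    set k := cl K (Set.range w) with hk
    have w0 : (b₁ - a₁) / ss K ∈ k := subset_cl ⟨0, rfl⟩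
    have w1 : (b₂ - a₂) / ss K ∈ k := subset_cl ⟨1, rfl⟩
    have w2 : a₁ / a₂ ∈ k := subset_cl ⟨2, rfl⟩
    have two : (2 : LL K) ∈ k := by exact_mod_cast natCast_mem k 2
    have hr' : a₂ / ss K ∈ k := by
      rw [← hr, r2f]
      exact div_mem (sub_mem (sub_mem (pow_mem w0 2) (one_mem _))
        (mul_mem (pow_mem w2 3) (sub_mem (pow_mem w1 2) (one_mem _))))
        (mul_mem (mul_mem two w2) (sub_mem (mul_mem (pow_mem w2 2) w1) w0))
    have hs' : ss K ∈ k := by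
      rw [← hsf, sf, hr]
      exact div_mem (add_mem (sub_mem (pow_mem w1 2) (one_mem _)) (mul_mem (mul_mem two w1) hr'))
        (pow_mem hr' 3)
    have h2 : a₂ ∈ k := by
      have : a₂ = a₂ / ss K * ss K := by field_simp
      rw [this]; exact mul_mem hr' hs'
    have h1 : a₁ ∈ k := by
      have : a₁ = a₁ / a₂ * a₂ := by field_simp
      rw [this]; exact mul_mem w2 h2
    have hS1 : Point.some a₁ b₁ c₁ ∈ ptSub (ss K) k := some_mem_cl K hs' h1
    have hS2 : Point.some a₂ b₂ c₂ ∈ ptSub (ss K) k := some_mem_cl K hs' h2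
    have hPm : PP K ∈ ptSub (ss K) k := by
      rw [hPP']
      exact sub_mem hS1 (nsmul_mem (sg_mem K _ hs') 2)
    refine pts_full K k (K_mem_cl _) hs' hPm ?_
    rw [hQQ']
    exact sub_mem (sub_mem hS2 hPm) (sg_mem K _ hs')
  have hinj : Function.Injective (aeval w : MvPolynomial (Fin 3) K →ₐ[K] LL K) := hw
  let φ : LL K →ₐ[K] LL K := IsFractionRing.liftAlgHom hinj
  have hφz : ∀ i, φ (zc K 3 i) = w i := by
    intro i
    have : φ (algebraMap (MvPolynomial (Fin 3) K) (LL K) (X i)) =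
        aeval w (X i : MvPolynomial (Fin 3) K) := by
      exact IsFractionRing.lift_algebraMap (A := MvPolynomial (Fin 3) K) (K := LL K)
        (g := (aeval w : MvPolynomial (Fin 3) K →ₐ[K] LL K).toRingHom) hinj (X i)
    rw [aeval_X] at this
    exact this
  have f0 : φ (m1 K) = (b₁ - a₁) / ss K := hφz 0
  have f1 : φ (m2 K) = (b₂ - a₂) / ss K := hφz 1
  have f2 : φ (kap K) = a₁ / a₂ := hφz 2
  have fr : φ (rr K) = a₂ / ss K := by
    have h1 : φ (rr K) = r2f (φ (m1 K)) (φ (m2 K)) (φ (kap K)) :=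
      map_r2f (φ : LL K →+* LL K) _ _ _
    rw [h1, f0, f1, f2, hr]
  have fs : φ (ss K) = ss K := by
    have h1 : φ (ss K) = sf (φ (m1 K)) (φ (m2 K)) (φ (kap K)) :=
      map_sf (φ : LL K →+* LL K) _ _ _
    rw [h1, f0, f1, f2, hsf]
  have gx2 : φ (x2 K) = a₂ := by
    rw [x2, map_mul, fs, fr]; field_simp
  have gx1 : φ (x1 K) = a₁ := by
    rw [x1, map_mul, gx2, f2]; field_simp
  have gy1 : φ (y1 K) = b₁ := by
    rw [y1, map_add, map_mul, gx1, f0, fs]; field_simp; ring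
  have gy2 : φ (y2 K) = b₂ := by
    rw [y2, map_add, map_mul, gx2, f1, fs]; field_simp; ring
  refine ⟨φ, fs, ?_, ?_⟩
  · obtain ⟨h', hh⟩ := act_some (s := ss K) (φ : LL K →+* LL K) fs
      (nons (e1 K) (y1_ne K))
    rw [PP, hh, ← PP, ← hP', Point.some.injEq]
    exact ⟨gx1, gy1⟩
  · obtain ⟨h', hh⟩ := act_some (s := ss K) (φ : LL K →+* LL K) fs
      (nons (e2 K) (y2_ne K))
    rw [QQ, hh, ← QQ, ← hQ', Point.some.injEq]
    exact ⟨gx2, gy2⟩

end

end Pool.Agent.Run7.h942.DG
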