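import Pool.Agent.Run7.h942.DG.Gen

/-! Heights in `K(z₁,z₂,z₃)` and on the curve. -/

namespace Pool.Agent.Run7.h942.DG

open MvPolynomial WeierstrassCurve WeierstrassCurve.Affine

section Bd

variable {K : Type*} [Field K] {N : ℕ}

theorem Bd.mono {a : FractionRing (MvPolynomial (Fin N) K)} {M M' : ℕ} (h : Bd a M)
    (hM : M ≤ M') : Bd a M' := by
  obtain ⟨g, k, h0, h1, h2, h3⟩ := h
  exact ⟨g, k, h0, h1.trans hM, h2.trans hM, h3⟩

theorem alg_ne {p : MvPolynomial (Fin N) K} (h : p ≠ 0) :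
    algebraMap (MvPolynomial (Fin N) K) (FractionRing (MvPolynomial (Fin N) K)) p ≠ 0 := by
  rw [Ne, FaithfulSMul.algebraMap_eq_zero_iff]; exact h

theorem td_mul {p q : MvPolynomial (Fin N) K} {a b : ℕ} (hp : p.totalDegree ≤ a)
    (hq : q.totalDegree ≤ b) : (p * q).totalDegree ≤ a + b :=
  (totalDegree_mul _ _).trans (add_le_add hp hq)

theorem td_add {p q : MvPolynomial (Fin N) K} {a : ℕ} (hp : p.totalDegree ≤ a)
    (hq : q.totalDegree ≤ a) : (p + q).totalDegree ≤ a :=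
  (totalDegree_add _ _).trans (max_le hp hq)

theorem td_sub {p q : MvPolynomial (Fin N) K} {a : ℕ} (hp : p.totalDegree ≤ a)
    (hq : q.totalDegree ≤ a) : (p - q).totalDegree ≤ a := by
  rw [sub_eq_add_neg]
  exact td_add hp (by rwa [totalDegree_neg])

theorem td_pow {p : MvPolynomial (Fin N) K} {a : ℕ} (hp : p.totalDegree ≤ a) (n : ℕ) :
    (p ^ n).totalDegree ≤ n * a :=
  (totalDegree_pow _ _).trans (Nat.mul_le_mul_left n hp)

theorem Bd.add {a b : FractionRing (MvPolynomial (Fin N) K)} {M M' : ℕ} (h : Bd a M)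
    (h' : Bd b M') : Bd (a + b) (M + M') := by
  obtain ⟨g, k, h0, h1, h2, rfl⟩ := h
  obtain ⟨g', k', h0', h1', h2', rfl⟩ := h'
  refine ⟨g * k' + k * g', k * k', mul_ne_zero h0 h0', td_add (td_mul h1 h2') (td_mul h2 h1'),
    td_mul h2 h2', ?_⟩
  rw [div_add_div _ _ (alg_ne h0) (alg_ne h0')]
  simp only [map_add, map_mul]

theorem Bd.neg {a : FractionRing (MvPolynomial (Fin N) K)} {M : ℕ} (h : Bd a M) : Bd (-a) M := by
  obtain ⟨g, k, h0, h1, h2, rfl⟩ := h
  exact ⟨-g, k, h0, by rwa [totalDegree_neg], h2, by rw [map_neg, neg_div]⟩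

theorem Bd.sub {a b : FractionRing (MvPolynomial (Fin N) K)} {M M' : ℕ} (h : Bd a M)
    (h' : Bd b M') : Bd (a - b) (M + M') := by
  rw [sub_eq_add_neg]; exact h.add h'.neg

theorem Bd.mul {a b : FractionRing (MvPolynomial (Fin N) K)} {M M' : ℕ} (h : Bd a M)
    (h' : Bd b M') : Bd (a * b) (M + M') := by
  obtain ⟨g, k, h0, h1, h2, rfl⟩ := h
  obtain ⟨g', k', h0', h1', h2', rfl⟩ := h'
  exact ⟨g * g', k * k', mul_ne_zero h0 h0', td_mul h1 h1', td_mul h2 h2', by
    rw [div_mul_div_comm, map_mul, map_mul]⟩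

theorem Bd.const (c : K) : Bd (algebraMap K (FractionRing (MvPolynomial (Fin N) K)) c) 0 := by
  refine ⟨C c, 1, one_ne_zero, by simp, by simp, ?_⟩
  rw [map_one, div_one, IsScalarTower.algebraMap_apply K (MvPolynomial (Fin N) K)]
  rfl

theorem Bd.nat (n : ℕ) : Bd (n : FractionRing (MvPolynomial (Fin N) K)) 0 := by
  have := Bd.const (N := N) (n : K)
  rwa [map_natCast] at this

theorem Bd.inv {a : FractionRing (MvPolynomial (Fin N) K)} {M : ℕ} (h : Bd a M) : Bd a⁻¹ M := by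
  by_cases ha : a = 0
  · rw [ha, inv_zero]
    simpa using (Bd.nat (K := K) (N := N) 0).mono (Nat.zero_le M)
  obtain ⟨g, k, h0, h1, h2, rfl⟩ := h
  refine ⟨k, g, ?_, h2, h1, by rw [inv_div]⟩
  rintro rfl
  apply ha
  rw [map_zero, zero_div]

theorem Bd.div {a b : FractionRing (MvPolynomial (Fin N) K)} {M M' : ℕ} (h : Bd a M)
    (h' : Bd b M') : Bd (a / b) (M + M') := by
  rw [div_eq_mul_inv]; exact h.mul h'.inv

theorem Bd.pow {a : FractionRing (MvPolynomial (Fin N) K)} {M : ℕ} (h : Bd a M) (n : ℕ) :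
    Bd (a ^ n) (n * M) := by
  obtain ⟨g, k, h0, h1, h2, rfl⟩ := h
  exact ⟨g ^ n, k ^ n, pow_ne_zero n h0, td_pow h1 n, td_pow h2 n, by
    rw [div_pow, map_pow, map_pow]⟩

theorem Bd.exists (a : FractionRing (MvPolynomial (Fin N) K)) : ∃ M, Bd a M := by
  obtain ⟨g, h, hh, rfl⟩ := IsFractionRing.div_surjective (A := MvPolynomial (Fin N) K) a
  exact ⟨max g.totalDegree h.totalDegree, g, h, nonZeroDivisors.ne_zero hh,
    le_max_left _ _, le_max_right _ _, rfl⟩

theorem Bd.sqrt {y : FractionRing (MvPolynomial (Fin N) K)} {M : ℕ} (h : Bd (y ^ 2) M) :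
    Bd y M := by
  obtain ⟨g, k, h0, h1, h2, h3⟩ := h
  by_cases hy : y = 0
  · rw [hy]
    simpa using (Bd.nat (K := K) (N := N) 0).mono (Nat.zero_le M)
  obtain ⟨a, b, hab, hy'⟩ := IsFractionRing.exists_reduced_fraction (A := MvPolynomial (Fin N) K) y
  have hb : (b : MvPolynomial (Fin N) K) ≠ 0 := nonZeroDivisors.ne_zero b.2
  have hy2 : y = algebraMap (MvPolynomial (Fin N) K) _ a / algebraMap (MvPolynomial (Fin N) K) _ b := by
    rw [← hy', IsFractionRing.mk'_eq_div]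
  have hg : g ≠ 0 := by
    rintro rfl
    rw [map_zero, zero_div] at h3
    exact hy (pow_eq_zero_iff two_ne_zero |>.mp h3)
  have e : a ^ 2 * k = g * (b : MvPolynomial (Fin N) K) ^ 2 := by
    apply FaithfulSMul.algebraMap_injective (MvPolynomial (Fin N) K)
      (FractionRing (MvPolynomial (Fin N) K))
    rw [map_mul, map_mul, map_pow, map_pow]
    rw [hy2, div_pow, div_eq_div_iff (pow_ne_zero 2 (alg_ne hb)) (alg_ne h0)] at h3
    exact h3
  have hrel : IsRelPrime (a ^ 2) ((b : MvPolynomial (Fin N) K) ^ 2) := hab.pow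
  have d1 : a ^ 2 ∣ g := hrel.dvd_of_dvd_mul_right ⟨k, e.symm⟩
  have d2 : (b : MvPolynomial (Fin N) K) ^ 2 ∣ k :=
    hrel.symm.dvd_of_dvd_mul_left ⟨g, by rw [e, mul_comm]⟩
  refine ⟨a, b, hb, ?_, ?_, hy2⟩
  · exact (totalDegree_le_of_dvd_of_isDomain ((dvd_pow_self a two_ne_zero).trans d1) hg).trans h1
  · exact (totalDegree_le_of_dvd_of_isDomain
      ((dvd_pow_self (b : MvPolynomial (Fin N) K) two_ne_zero).trans d2) h0).trans h2

/-- heights of images under endomorphisms -/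
theorem Bd.map (a : FractionRing (MvPolynomial (Fin N) K)) : ∃ C : ℕ,
    ∀ (ψ : FractionRing (MvPolynomial (Fin N) K) →ₐ[K] FractionRing (MvPolynomial (Fin N) K))
      (M : ℕ), (∀ i, Bd (ψ (zc K N i)) M) → Bd (ψ a) (C * M) := by
  have h1 : ∀ p : MvPolynomial (Fin N) K, ∃ C : ℕ,
    ∀ (ψ : FractionRing (MvPolynomial (Fin N) K) →ₐ[K] FractionRing (MvPolynomial (Fin N) K))
      (M : ℕ), (∀ i, Bd (ψ (zc K N i)) M) →
        Bd (ψ (algebraMap (MvPolynomial (Fin N) K) _ p)) (C * M) := by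
    intro p
    induction p using MvPolynomial.induction_on with
    | C a =>
      refine ⟨0, fun ψ M _ => ?_⟩
      have : algebraMap (MvPolynomial (Fin N) K) (FractionRing (MvPolynomial (Fin N) K)) (C a) =
          algebraMap K _ a := by
        rw [IsScalarTower.algebraMap_apply K (MvPolynomial (Fin N) K)]
        rfl
      rw [this, ψ.commutes, zero_mul]
      exact Bd.const a
    | add p q hp hq =>
      obtain ⟨Cp, hp⟩ := hp
      obtain ⟨Cq, hq⟩ := hq
      refine ⟨Cp + Cq, fun ψ M hM => ?_⟩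
      rw [map_add, map_add, add_mul]
      exact (hp ψ M hM).add (hq ψ M hM)
    | mul_X p i hp =>
      obtain ⟨Cp, hp⟩ := hp
      refine ⟨Cp + 1, fun ψ M hM => ?_⟩
      rw [map_mul, map_mul, add_mul, one_mul]
      exact (hp ψ M hM).mul (hM i)
  obtain ⟨g, h, hh, rfl⟩ := IsFractionRing.div_surjective (A := MvPolynomial (Fin N) K) a
  obtain ⟨Cg, hg⟩ := h1 g
  obtain ⟨Ch, hh⟩ := h1 h
  refine ⟨Cg + Ch, fun ψ M hM => ?_⟩
  rw [map_div₀, add_mul]
  exact (hg ψ M hM).div (hh ψ M hM)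

end Bd

section PB

variable {K : Type*} [Field K] [CharZero K] [DecidableEq (LL K)] {s : LL K}

/-- both coordinates have height at most `M` -/
def PB (A : (Ws s).Point) (M : ℕ) : Prop :=
  A = 0 ∨ ∃ x y h, A = .some x y h ∧ Bd x M ∧ Bd y M

/-- the `x`-coordinate has height at most `M` -/
def XB (A : (Ws s).Point) (M : ℕ) : Prop :=
  A = 0 ∨ ∃ x y h, A = .some x y h ∧ Bd x M

omit [CharZero K] [DecidableEq (LL K)] in
theorem PB.mono {A : (Ws s).Point} {M M' : ℕ} (h : PB A M) (hM : M ≤ M') : PB A M' := by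
  rcases h with h | ⟨x, y, h, h1, h2, h3⟩
  · exact Or.inl h
  · exact Or.inr ⟨x, y, h, h1, h2.mono hM, h3.mono hM⟩

omit [CharZero K] [DecidableEq (LL K)] in
theorem PB.neg {A : (Ws s).Point} {M : ℕ} (h : PB A M) : PB (-A) M := by
  rcases h with rfl | ⟨x, y, h, rfl, h2, h3⟩
  · exact Or.inl rfl
  · refine Or.inr ⟨_, _, _, Point.neg_some h, h2, ?_⟩
    rw [negY_eq]
    exact h3.neg

omit [CharZero K] [DecidableEq (LL K)] in
theorem PB.exists (A : (Ws s).Point) : ∃ M, PB A M := by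
  rcases A with _ | ⟨x, y, h⟩
  · exact ⟨0, Or.inl rfl⟩
  · obtain ⟨M, hM⟩ := Bd.exists x
    obtain ⟨M', hM'⟩ := Bd.exists y
    exact ⟨M + M', Or.inr ⟨x, y, h, rfl, hM.mono (by omega), hM'.mono (by omega)⟩⟩

theorem PB.add {A B : (Ws s).Point} {M : ℕ} (hA : PB A M) (hB : PB B M) : PB (A + B) (16 * M) := by
  rcases add_cases A B with h | h | h | h
  · exact Or.inl h
  · rw [h, zero_add]; exact hB.mono (by omega)
  · rw [h, add_zero]; exact hA.mono (by omega)
  · obtain ⟨x₁, y₁, h₁, x₂, y₂, h₂, x₃, y₃, h₃, l, hA', hB', hAB, hx₃, hy₃, hl⟩ := h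
    rcases hA with hA | ⟨a₁, b₁, c₁, hA, ha₁, hb₁⟩
    · rw [hA'] at hA; exact absurd hA (Point.some_ne_zero _)
    rcases hB with hB | ⟨a₂, b₂, c₂, hB, ha₂, hb₂⟩
    · rw [hB'] at hB; exact absurd hB (Point.some_ne_zero _)
    rw [hA', Point.some.injEq] at hA
    rw [hB', Point.some.injEq] at hB
    obtain ⟨rfl, rfl⟩ := hA
    obtain ⟨rfl, rfl⟩ := hB
    have hl4 : Bd l (4 * M) := by
      rcases hl with ⟨_, rfl⟩ | ⟨_, _, _, rfl⟩
      · exact ((hb₁.sub hb₂).div (ha₁.sub ha₂)).mono (by omega)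
      · have h3 : Bd (3 : LL K) 0 := by exact_mod_cast Bd.nat (K := K) (N := 3) 3
        have h2 : Bd (2 : LL K) 0 := by exact_mod_cast Bd.nat (K := K) (N := 3) 2
        exact (((h3.mul (ha₁.pow 2)).add (h2.mul ha₁)).div (h2.mul hb₁)).mono (by omega)
    have h1 : Bd (1 : LL K) 0 := by exact_mod_cast Bd.nat (K := K) (N := 3) 1
    have hx₃M : Bd x₃ (10 * M) := by
      rw [hx₃]
      exact ((((hl4.pow 2).sub h1).sub ha₁).sub ha₂).mono (by omega)
    refine Or.inr ⟨x₃, y₃, h₃, hAB, hx₃M.mono (by omega), ?_⟩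
    rw [hy₃]
    exact ((hl4.mul (hx₃M.sub ha₁)).add hb₁).neg.mono (by omega)

theorem XB.double {A : (Ws s).Point} {M C : ℕ} (hs : Bd (s ^ 2) C) (hA : XB A M) :
    XB (A + A) (4 * M + C) := by
  rcases hA with rfl | ⟨x, y, h, rfl, hx⟩
  · rw [add_zero]; exact Or.inl rfl
  by_cases hy : y = 0
  · left
    apply Point.add_self_of_Y_eq
    rw [negY_eq, hy, neg_zero]
  obtain ⟨y', h', hd⟩ := double_x h hy
  refine Or.inr ⟨_, _, _, hd, ?_⟩
  have e := eqn h
  rw [← e]
  obtain ⟨g, k, hk, hg, hk', rfl⟩ := hx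
  obtain ⟨a, b, hb, ha, hb', hs'⟩ := hs
  have hkk := alg_ne hk
  have hbb := alg_ne hb
  set α := algebraMap (MvPolynomial (Fin 3) K) (FractionRing (MvPolynomial (Fin 3) K)) with hα
  have hD : (4 : LL K) * (α b * α g ^ 3 * α k + α b * α g ^ 2 * α k ^ 2 + α a * α k ^ 4) =
      4 * y ^ 2 * (α b * α k ^ 4) := by
    rw [e, hs']
    field_simp
  have hD0 : (4 : LL K) * (α b * α g ^ 3 * α k + α b * α g ^ 2 * α k ^ 2 + α a * α k ^ 4) ≠ 0 := by
    rw [hD]
    exact mul_ne_zero (mul_ne_zero (by norm_num) (pow_ne_zero 2 hy))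
      (mul_ne_zero hbb (pow_ne_zero 4 hkk))
  have hDp : 4 * (b * g ^ 3 * k + b * g ^ 2 * k ^ 2 + a * k ^ 4) ≠ 0 := by
    intro h0
    apply hD0
    have := congrArg α h0
    simpa only [map_mul, map_add, map_pow, map_ofNat, map_zero] using this
  have t4 : (4 : MvPolynomial (Fin 3) K).totalDegree ≤ 0 := by
    have : (4 : MvPolynomial (Fin 3) K) = MvPolynomial.C 4 := (map_ofNat MvPolynomial.C 4).symm
    rw [this, totalDegree_C]
  have t8 : (8 : MvPolynomial (Fin 3) K).totalDegree ≤ 0 := by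
    have : (8 : MvPolynomial (Fin 3) K) = MvPolynomial.C 8 := (map_ofNat MvPolynomial.C 8).symm
    rw [this, totalDegree_C]
  refine ⟨b * g ^ 4 - 8 * (a * (g * k ^ 3)) - 4 * (a * k ^ 4),
    4 * (b * g ^ 3 * k + b * g ^ 2 * k ^ 2 + a * k ^ 4), hDp, ?_, ?_, ?_⟩
  · refine td_sub (td_sub ?_ ?_) ?_
    · exact (td_mul hb' (td_pow hg 4)).trans (by omega)
    · exact (td_mul t8 (td_mul ha (td_mul hg (td_pow hk' 3)))).trans (by omega)
    · exact (td_mul t4 (td_mul ha (td_pow hk' 4))).trans (by omega)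
  · have : (b * g ^ 3 * k + b * g ^ 2 * k ^ 2 + a * k ^ 4).totalDegree ≤ 4 * M + C := by
      refine td_add (td_add ?_ ?_) ?_
      · exact (td_mul (td_mul hb' (td_pow hg 3)) hk').trans (by omega)
      · exact (td_mul (td_mul hb' (td_pow hg 2)) (td_pow hk' 2)).trans (by omega)
      · exact (td_mul ha (td_pow hk' 4)).trans (by omega)
    exact (td_mul t4 this).trans (by omega)
  · simp only [map_mul, map_add, map_pow, map_ofNat, map_sub]
    rw [← hα, hD, hs', div_eq_div_iff (mul_ne_zero (by norm_num) (pow_ne_zero 2 hy))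
      (mul_ne_zero (mul_ne_zero (by norm_num) (pow_ne_zero 2 hy))
      (mul_ne_zero hbb (pow_ne_zero 4 hkk)))]
    field_simp

omit [CharZero K] [DecidableEq (LL K)] in
theorem XB.toPB {A : (Ws s).Point} {M C : ℕ} (hs : Bd (s ^ 2) C) (hA : XB A M) :
    PB A (5 * M + C) := by
  rcases hA with rfl | ⟨x, y, h, rfl, hx⟩
  · exact Or.inl rfl
  · refine Or.inr ⟨x, y, h, rfl, hx.mono (by omega), Bd.sqrt ?_⟩
    rw [eqn h]
    exact (((hx.pow 3).add (hx.pow 2)).add hs).mono (by omega)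

omit [CharZero K] [DecidableEq (LL K)] in
theorem PB.toXB {A : (Ws s).Point} {M : ℕ} (hA : PB A M) : XB A M := by
  rcases hA with rfl | ⟨x, y, h, rfl, hx, _⟩
  · exact Or.inl rfl
  · exact Or.inr ⟨x, y, h, rfl, hx⟩

theorem XB.two_pow {A : (Ws s).Point} {M C : ℕ} (hs : Bd (s ^ 2) C) (hA : XB A M) (k : ℕ) :
    XB (2 ^ k • A) (4 ^ k * (M + C) - C) := by
  induction k with
  | zero => simpa using hA
  | succ k ih =>
    have h1 := XB.double hs ih
    rw [← two_nsmul, smul_smul, ← pow_succ'] at h1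
    have h2 : 4 * (4 ^ k * (M + C) - C) + C ≤ 4 ^ (k + 1) * (M + C) - C := by
      have h3 : 1 ≤ 4 ^ k := Nat.one_le_pow _ _ (by norm_num)
      have h4 : C ≤ 4 ^ k * (M + C) := by nlinarith
      rw [pow_succ]
      zify [h4]
      have h5 : C ≤ 4 ^ k * 4 * (M + C) := by nlinarith
      rw [Nat.cast_sub h5]
      push_cast
      nlinarith
    rcases h1 with h | ⟨x, y, h, h1', hx⟩
    · exact Or.inl h
    · exact Or.inr ⟨x, y, h, h1', hx.mono h2⟩

/-- crude polynomial bound for all multiples -/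
theorem PB.nsmul {A : (Ws s).Point} {M : ℕ} (hA : PB A M) (n : ℕ) :
    PB (n • A) ((2 * n + 1) ^ 8 * M) := by
  have key : ∀ n : ℕ, 1 ≤ n → PB (n • A) ((2 * n) ^ 8 * M) := by
    intro n
    induction n using Nat.strong_induction_on with
    | _ n ih =>
      intro hn
      rcases Nat.even_or_odd' n with ⟨m, hm | hm⟩
      · have hm1 : 1 ≤ m := by omega
        have h1 := ih m (by omega) hm1
        have h2 := PB.add h1 h1
        rw [← two_nsmul, smul_smul, ← hm] at h2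
        refine h2.mono ?_
        subst hm
        have : (2 * (2 * m)) ^ 8 = 256 * (2 * m) ^ 8 := by ring
        rw [this]
        nlinarith [Nat.zero_le ((2 * m) ^ 8 * M)]
      · by_cases hm0 : m = 0
        · subst hm0
          subst hm
          simpa using hA.mono (by nlinarith)
        · have hm1 : 1 ≤ m := by omega
          have h1 := ih m (by omega) hm1
          have h2 := PB.add h1 h1
          rw [← two_nsmul, smul_smul] at h2
          have h3 : M ≤ 16 * ((2 * m) ^ 8 * M) := by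
            have : 1 ≤ (2 * m) ^ 8 := Nat.one_le_pow _ _ (by omega)
            nlinarith
          have h4 := PB.add h2 (hA.mono h3)
          have h5 : (2 * m) • A + A = n • A := by
            rw [hm, add_smul, one_smul]
          rw [h5] at h4
          refine h4.mono ?_
          subst hm
          have h6 : (2 * (2 * m)) ^ 8 ≤ (2 * (2 * m + 1)) ^ 8 := Nat.pow_le_pow_left (by omega) 8
          have : (2 * (2 * m)) ^ 8 = 256 * (2 * m) ^ 8 := by ring
          rw [this] at h6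
          calc 16 * (16 * ((2 * m) ^ 8 * M)) = 256 * (2 * m) ^ 8 * M := by ring
            _ ≤ (2 * (2 * m + 1)) ^ 8 * M := Nat.mul_le_mul_right M h6
  rcases Nat.eq_zero_or_pos n with rfl | hn
  · rw [zero_nsmul]; exact Or.inl rfl
  · exact (key n hn).mono (Nat.mul_le_mul_right M (Nat.pow_le_pow_left (by omega) 8))

end PB

end Pool.Agent.Run7.h942.DG
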