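import Pool.Agent.Run7.h942.DG.Sigma

/-! Lower bound for the height of `r(s²)` in `K(z₁,z₂,z₃)`. -/

namespace Pool.Agent.Run7.h942.DG

open MvPolynomial

variable {K : Type*} [Field K]

/-- `v^e r(u/v)` -/
noncomputable def hz (r : Polynomial K) (u v : MvPolynomial (Fin 3) K) (e : ℕ) :
    MvPolynomial (Fin 3) K :=
  ∑ i ∈ Finset.range (e + 1), C (r.coeff i) * u ^ i * v ^ (e - i)

theorem alg_hz (r : Polynomial K) {u v : MvPolynomial (Fin 3) K} (hv : v ≠ 0) {e : ℕ}
    (he : r.natDegree ≤ e) {t : LL K}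
    (ht : t = algebraMap (MvPolynomial (Fin 3) K) (LL K) u /
      algebraMap (MvPolynomial (Fin 3) K) (LL K) v) :
    algebraMap (MvPolynomial (Fin 3) K) (LL K) (hz r u v e) =
      algebraMap (MvPolynomial (Fin 3) K) (LL K) v ^ e * Polynomial.aeval t r := by
  have hv' := alg_ne hv
  rw [Polynomial.aeval_eq_sum_range' (Nat.lt_succ_of_le he), Finset.mul_sum, hz, map_sum]
  refine Finset.sum_congr rfl fun i hi => ?_
  have hi' : i ≤ e := by
    have := Finset.mem_range.mp hi
    omega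
  rw [map_mul, map_mul, map_pow, map_pow, ht, Algebra.smul_def, div_pow]
  have h1 : algebraMap (MvPolynomial (Fin 3) K) (LL K) (C (r.coeff i)) =
      algebraMap K (LL K) (r.coeff i) := by
    rw [IsScalarTower.algebraMap_apply K (MvPolynomial (Fin 3) K)]
    rfl
  have h2 : algebraMap (MvPolynomial (Fin 3) K) (LL K) v ^ e =
      algebraMap (MvPolynomial (Fin 3) K) (LL K) v ^ (e - i) *
      algebraMap (MvPolynomial (Fin 3) K) (LL K) v ^ i := by
    rw [← pow_add]; congr 1; omega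
  rw [h1, h2]
  field_simp

theorem td_pow_eq {v : MvPolynomial (Fin 3) K} (hv : v ≠ 0) (n : ℕ) :
    (v ^ n).totalDegree = n * v.totalDegree := by
  induction n with
  | zero => simp
  | succ n ih =>
    rw [pow_succ, totalDegree_mul_of_isDomain (pow_ne_zero n hv) hv, ih]
    ring

theorem td_hz {r : Polynomial K} {u v : MvPolynomial (Fin 3) K} (hv : v ≠ 0)
    (huv : u.totalDegree < v.totalDegree) (hr : r.coeff 0 ≠ 0) (e : ℕ) :
    (hz r u v e).totalDegree = e * v.totalDegree := by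
  rw [hz, Finset.sum_range_succ']
  have h0 : (C (r.coeff 0) * u ^ 0 * v ^ (e - 0)).totalDegree = e * v.totalDegree := by
    rw [pow_zero, mul_one, Nat.sub_zero, totalDegree_mul_of_isDomain (by simpa using hr)
      (pow_ne_zero e hv), totalDegree_C, zero_add, td_pow_eq hv]
  rcases Nat.eq_zero_or_pos e with rfl | he
  · rw [Finset.range_zero, Finset.sum_empty, zero_add, h0]
  · rw [totalDegree_add_eq_right_of_totalDegree_lt, h0]
    rw [h0]
    have : (∑ k ∈ Finset.range e, C (r.coeff (k + 1)) * u ^ (k + 1) * v ^ (e - (k + 1))).totalDegree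
        ≤ e * v.totalDegree - 1 := by
      refine totalDegree_finsetSum_le fun k hk => ?_
      have hk' := Finset.mem_range.mp hk
      refine (td_mul (td_mul (a := 0) (by rw [totalDegree_C]) (td_pow le_rfl (k + 1)))
        (td_pow le_rfl (e - (k + 1)))).trans ?_
      obtain ⟨j, hj⟩ : ∃ j, e = (k + 1) + j := ⟨e - (k + 1), by omega⟩
      have h3 : e - (k + 1) = j := by omega
      rw [h3, hj]
      have h4 : (k + 1) * u.totalDegree + 1 ≤ (k + 1) * v.totalDegree := by
        have : (k + 1) * (u.totalDegree + 1) ≤ (k + 1) * v.totalDegree :=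
          Nat.mul_le_mul_left _ huv
        nlinarith
      have h5 : (k + 1 + j) * v.totalDegree = (k + 1) * v.totalDegree + j * v.totalDegree := by
        ring
      rw [h5]
      omega
    have h6 : 0 < e * v.totalDegree := Nat.mul_pos he (by omega)
    omega

theorem hz_relprime {p q : Polynomial K} {u v : MvPolynomial (Fin 3) K} (hv : v ≠ 0)
    (huv : IsRelPrime u v) {h : ℕ} (hpq : IsCoprime p q) (hp : p.natDegree = h)
    (hq : q.natDegree ≤ h) (hp0 : p ≠ 0) (hP : hz p u v h ≠ 0) :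
    IsRelPrime (hz p u v h) (hz q u v h) := by
  rw [UniqueFactorizationMonoid.isRelPrime_iff_no_prime_factors hP]
  intro π hπp hπq hπ
  obtain ⟨a, b, hab⟩ := hpq
  set e := max a.natDegree b.natDegree with he
  obtain ⟨t, ht⟩ : ∃ t : LL K, t = algebraMap (MvPolynomial (Fin 3) K) (LL K) u /
      algebraMap (MvPolynomial (Fin 3) K) (LL K) v := ⟨_, rfl⟩
  have e1 : hz a u v e * hz p u v h + hz b u v e * hz q u v h = v ^ (e + h) := by
    apply FaithfulSMul.algebraMap_injective (MvPolynomial (Fin 3) K) (LL K)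
    rw [map_add, map_mul, map_mul, alg_hz a hv (le_max_left _ _) ht, alg_hz p hv hp.le ht,
      alg_hz b hv (le_max_right _ _) ht, alg_hz q hv hq ht, map_pow]
    have := congrArg (Polynomial.aeval t) hab
    rw [map_add, map_mul, map_mul, map_one] at this
    calc _ = algebraMap (MvPolynomial (Fin 3) K) (LL K) v ^ (e + h) *
        (Polynomial.aeval t a * Polynomial.aeval t p +
          Polynomial.aeval t b * Polynomial.aeval t q) := by rw [pow_add]; ring
      _ = _ := by rw [this, mul_one]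
  have hπv : π ∣ v := by
    apply hπ.dvd_of_dvd_pow (n := e + h)
    rw [← e1]
    exact dvd_add (Dvd.dvd.mul_left hπp _) (Dvd.dvd.mul_left hπq _)
  have e2 : hz p u v h = (∑ i ∈ Finset.range h, C (p.coeff i) * u ^ i * v ^ (h - i)) +
      C (p.coeff h) * u ^ h := by
    rw [hz, Finset.sum_range_succ, Nat.sub_self, pow_zero, mul_one]
  have hπs : π ∣ ∑ i ∈ Finset.range h, C (p.coeff i) * u ^ i * v ^ (h - i) := by
    refine Finset.dvd_sum fun i hi => ?_
    have hi' := Finset.mem_range.mp hi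
    exact Dvd.dvd.mul_left (hπv.trans (dvd_pow_self v (by omega))) _
  have hπu : π ∣ C (p.coeff h) * u ^ h := by
    rw [e2] at hπp
    exact (dvd_add_right hπs).mp hπp
  have hph : p.coeff h ≠ 0 := by
    rw [← hp]
    exact Polynomial.leadingCoeff_ne_zero.mpr hp0
  have hu : IsUnit (C (p.coeff h) : MvPolynomial (Fin 3) K) :=
    (isUnit_iff_ne_zero.mpr hph).map C
  have hπu' : π ∣ u := hπ.dvd_of_dvd_pow ((hu.dvd_mul_left).mp hπu)
  exact hπ.not_isUnit (huv hπu' hπv)

section

variable (K)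

/-- the polynomials occurring in `s` -/
noncomputable def pA : MvPolynomial (Fin 3) K := X 0 ^ 2 - 1 - X 2 ^ 3 * (X 1 ^ 2 - 1)
@[inherit_doc pA] noncomputable def pB : MvPolynomial (Fin 3) K :=
  2 * X 2 * (X 2 ^ 2 * X 1 - X 0)
@[inherit_doc pA] noncomputable def pC : MvPolynomial (Fin 3) K :=
  X 1 * (X 0 ^ 2 - 1) - X 2 * X 0 * (X 1 ^ 2 - 1)

theorem td_pA : (pA K).totalDegree = 5 := by
  have h1 : pA K = (X 0 ^ 2 - 1 + X 2 ^ 3) + (-(X 2 ^ 3 * X 1 ^ 2)) := by
    rw [pA]; ring
  have h2 : (-(X 2 ^ 3 * X 1 ^ 2) : MvPolynomial (Fin 3) K).totalDegree = 5 := by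
    rw [totalDegree_neg, totalDegree_mul_of_isDomain (pow_ne_zero _ (X_ne_zero _))
      (pow_ne_zero _ (X_ne_zero _)), totalDegree_X_pow, totalDegree_X_pow]
  have h3 : (X 0 ^ 2 - 1 + X 2 ^ 3 : MvPolynomial (Fin 3) K).totalDegree ≤ 3 := by
    refine td_add (td_sub ?_ ?_) ?_
    · rw [totalDegree_X_pow]; omega
    · rw [totalDegree_one]; omega
    · rw [totalDegree_X_pow]
  rw [h1, totalDegree_add_eq_right_of_totalDegree_lt (by omega), h2]

theorem td_two : (2 : MvPolynomial (Fin 3) K).totalDegree ≤ 0 := by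
  have : (2 : MvPolynomial (Fin 3) K) = MvPolynomial.C 2 := (map_ofNat MvPolynomial.C 2).symm
  rw [this, totalDegree_C]

theorem td_Xi (i : Fin 3) : (X i : MvPolynomial (Fin 3) K).totalDegree ≤ 1 := by
  rw [totalDegree_X]

theorem td_pB : (pB K).totalDegree ≤ 4 := by
  refine (td_mul (a := 1) (b := 3) ?_ ?_).trans (by omega)
  · exact (td_mul (td_two K) (td_Xi K 2)).trans (by omega)
  · refine td_sub ?_ ((td_Xi K 0).trans (by omega))
    exact (td_mul (td_pow (td_Xi K 2) 2) (td_Xi K 1)).trans (by omega)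

theorem td_pC : (pC K).totalDegree ≤ 4 := by
  refine td_sub ?_ ?_
  · refine (td_mul (td_Xi K 1) (td_sub (a := 2) ?_ ?_)).trans (by omega)
    · rw [totalDegree_X_pow]
    · rw [totalDegree_one]; omega
  · refine (td_mul (td_mul (td_Xi K 2) (td_Xi K 0)) (td_sub (a := 2) ?_ ?_)).trans (by omega)
    · rw [totalDegree_X_pow]
    · rw [totalDegree_one]; omega

variable [CharZero K]

theorem ss_eq : ss K * algebraMap (MvPolynomial (Fin 3) K) (LL K) (pA K ^ 3) =
    algebraMap (MvPolynomial (Fin 3) K) (LL K) (pB K ^ 2 * (2 * pC K)) := by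
  have hA : algebraMap (MvPolynomial (Fin 3) K) (LL K) (pA K) =
      m1 K ^ 2 - 1 - kap K ^ 3 * (m2 K ^ 2 - 1) := by
    rw [pA, map_sub, map_sub, map_mul, map_sub, map_pow, map_pow, map_pow, map_one]
    rfl
  have hB : algebraMap (MvPolynomial (Fin 3) K) (LL K) (pB K) =
      2 * kap K * (kap K ^ 2 * m2 K - m1 K) := by
    rw [pB, map_mul, map_mul, map_sub, map_mul, map_pow, map_ofNat]
    rfl
  have hC : algebraMap (MvPolynomial (Fin 3) K) (LL K) (pC K) =
      m2 K * (m1 K ^ 2 - 1) - kap K * m1 K * (m2 K ^ 2 - 1) := by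
    rw [pC, map_sub, map_mul, map_sub, map_mul, map_mul, map_sub, map_pow, map_pow, map_one]
    rfl
  have hA0 := nn_ne K
  have hB0 : 2 * kap K * (kap K ^ 2 * m2 K - m1 K) ≠ 0 :=
    mul_ne_zero (mul_ne_zero two_ne_zero (kap_ne K)) (nd_ne K)
  rw [map_pow, map_mul, map_pow, map_mul, map_ofNat, hA, hB, hC, ss, sf, r2f]
  generalize hα : m1 K ^ 2 - 1 - kap K ^ 3 * (m2 K ^ 2 - 1) = α at *
  generalize hβ : 2 * kap K * (kap K ^ 2 * m2 K - m1 K) = β at *
  field_simp
  rw [← hα, ← hβ]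
  ring

theorem exists_uv : ∃ u v : MvPolynomial (Fin 3) K, IsRelPrime u v ∧ v ≠ 0 ∧
    u.totalDegree < v.totalDegree ∧ ss K ^ 2 = algebraMap (MvPolynomial (Fin 3) K) (LL K) u /
      algebraMap (MvPolynomial (Fin 3) K) (LL K) v := by
  obtain ⟨u, b, hub, hs⟩ := IsFractionRing.exists_reduced_fraction (A := MvPolynomial (Fin 3) K)
    (ss K ^ 2)
  have hb : (b : MvPolynomial (Fin 3) K) ≠ 0 := nonZeroDivisors.ne_zero b.2
  have hs2 : ss K ^ 2 = algebraMap (MvPolynomial (Fin 3) K) (LL K) u /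
      algebraMap (MvPolynomial (Fin 3) K) (LL K) b := by
    rw [← hs, IsFractionRing.mk'_eq_div]
  have hu : u ≠ 0 := by
    rintro rfl
    rw [map_zero, zero_div] at hs2
    exact ss_ne K (pow_eq_zero_iff two_ne_zero |>.mp hs2)
  refine ⟨u, b, hub, hb, ?_, hs2⟩
  have hA0 : pA K ≠ 0 := by
    intro h0
    have := td_pA K
    rw [h0, totalDegree_zero] at this
    omega
  have e : u * (pA K ^ 3) ^ 2 = b * (pB K ^ 2 * (2 * pC K)) ^ 2 := by
    apply FaithfulSMul.algebraMap_injective (MvPolynomial (Fin 3) K) (LL K)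
    have hb' := alg_ne hb
    calc algebraMap (MvPolynomial (Fin 3) K) (LL K) (u * (pA K ^ 3) ^ 2)
        = algebraMap (MvPolynomial (Fin 3) K) (LL K) b *
          (ss K ^ 2 * algebraMap (MvPolynomial (Fin 3) K) (LL K) (pA K ^ 3) ^ 2) := by
          rw [map_mul, map_pow _ _ 2, hs2]
          field_simp
      _ = algebraMap (MvPolynomial (Fin 3) K) (LL K) b *
          algebraMap (MvPolynomial (Fin 3) K) (LL K) (pB K ^ 2 * (2 * pC K)) ^ 2 := by
          rw [← mul_pow, ss_eq]
      _ = _ := by simp only [map_mul, map_pow]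
  have h3 : (u * (pA K ^ 3) ^ 2).totalDegree = u.totalDegree + 30 := by
    rw [totalDegree_mul_of_isDomain hu (pow_ne_zero _ (pow_ne_zero _ hA0)),
      td_pow_eq (pow_ne_zero _ hA0), td_pow_eq hA0, td_pA]
  have h4 : ((b : MvPolynomial (Fin 3) K) * (pB K ^ 2 * (2 * pC K)) ^ 2).totalDegree ≤
      (b : MvPolynomial (Fin 3) K).totalDegree + 24 := by
    refine (td_mul le_rfl (td_pow (a := 12) ?_ 2)).trans (by omega)
    exact (td_mul (td_pow (td_pB K) 2) (td_mul (td_two K) (td_pC K))).trans (by omega)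
  rw [← e, h3] at h4
  omega

end

/-- the key lower bound -/
theorem lower [CharZero K] {p q : Polynomial K} {h : ℕ} (hpq : IsCoprime p q)
    (hp : p.natDegree = h) (hq : q.natDegree = h) (hp0 : p ≠ 0) (hq0 : q ≠ 0) {M : ℕ}
    (hM : Bd (Polynomial.aeval (ss K ^ 2) p / Polynomial.aeval (ss K ^ 2) q) M) : h ≤ M := by
  obtain ⟨u, v, huv, hv, htd, ht⟩ := exists_uv K
  obtain ⟨g, k, hk, hg, hk', e⟩ := hM
  have hinj : ∀ r : Polynomial K, r ≠ 0 → Polynomial.aeval (ss K ^ 2) r ≠ 0 := by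
    intro r hr h0
    exact trans_ss (K := K) ⟨r, hr, h0⟩
  have hpt := hinj p hp0
  have hqt := hinj q hq0
  have hv' := alg_ne hv
  have aP := alg_hz p hv hp.le ht
  have aQ := alg_hz q hv hq.le ht
  have hP0 : hz p u v h ≠ 0 := by
    intro h0
    rw [h0, map_zero] at aP
    exact mul_ne_zero (pow_ne_zero h hv') hpt aP.symm
  have hQ0 : hz q u v h ≠ 0 := by
    intro h0
    rw [h0, map_zero] at aQ
    exact mul_ne_zero (pow_ne_zero h hv') hqt aQ.symm
  have hrel := hz_relprime hv huv hpq hp hq.le hp0 hP0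
  have e1 : hz p u v h * k = hz q u v h * g := by
    apply FaithfulSMul.algebraMap_injective (MvPolynomial (Fin 3) K) (LL K)
    rw [map_mul, map_mul, aP, aQ]
    rw [div_eq_div_iff hqt (alg_ne hk)] at e
    linear_combination algebraMap (MvPolynomial (Fin 3) K) (LL K) v ^ h * e
  have hg0 : g ≠ 0 := by
    rintro rfl
    rw [mul_zero] at e1
    exact mul_ne_zero hP0 hk e1
  have dQ : hz q u v h ∣ k := hrel.symm.dvd_of_dvd_mul_left ⟨g, e1⟩
  have dP : hz p u v h ∣ g := hrel.dvd_of_dvd_mul_left ⟨k, e1.symm⟩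
  have hvt : 1 ≤ v.totalDegree := by omega
  by_cases hq00 : q.coeff 0 = 0
  · have hp00 : p.coeff 0 ≠ 0 := by
      intro h0
      obtain ⟨a, b, hab⟩ := hpq
      have := congrArg (fun r => Polynomial.eval 0 r) hab
      simp only [Polynomial.eval_add, Polynomial.eval_mul, Polynomial.eval_one] at this
      rw [← Polynomial.coeff_zero_eq_eval_zero p, ← Polynomial.coeff_zero_eq_eval_zero q, h0,
        hq00] at this
      simp at this
    have h1 := (totalDegree_le_of_dvd_of_isDomain dP hg0).trans hg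
    rw [td_hz hv htd hp00] at h1
    nlinarith
  · have h1 := (totalDegree_le_of_dvd_of_isDomain dQ hk).trans hk'
    rw [td_hz hv htd hq00] at h1
    nlinarith

end Pool.Agent.Run7.h942.DG
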