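import Pool.Agent.Run7.h942.DG.Defs

/-! Reduced representatives of tuples of polynomials. -/

namespace Pool.Agent.Run7.h942.DG

open MvPolynomial

section UFD

variable {R : Type*} [CommRing R] [IsDomain R] [UniqueFactorizationMonoid R] {n : ℕ}

omit [IsDomain R] in
theorem exists_reduced (H : Fin (n + 1) → R) (hH : ∃ i, H i ≠ 0) :
    ∃ (h : R) (G : Fin (n + 1) → R), h ≠ 0 ∧ (∀ i, H i = h * G i) ∧
      ∀ g, (∀ i, g ∣ G i) → IsUnit g := by
  obtain ⟨inst⟩ : Nonempty (NormalizedGCDMonoid R) := inferInstance
  obtain ⟨G, hG, hg⟩ := Finset.extract_gcd (s := Finset.univ) H Finset.univ_nonempty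
  refine ⟨Finset.univ.gcd H, G, ?_, fun i => hG i (Finset.mem_univ i), ?_⟩
  · intro h0
    obtain ⟨i, hi⟩ := hH
    exact hi ((Finset.gcd_eq_zero_iff.mp h0) i (Finset.mem_univ i))
  · intro g hgG
    have : g ∣ Finset.univ.gcd G := Finset.dvd_gcd fun i _ => hgG i
    rw [hg] at this
    exact isUnit_of_dvd_one this

theorem reduced_dvd (G H : Fin (n + 1) → R) (hG : ∀ g, (∀ i, g ∣ G i) → IsUnit g)
    (hGH : ∀ i j, G i * H j = G j * H i) : ∃ h, ∀ i, H i = h * G i := by
  obtain ⟨inst⟩ : Nonempty (NormalizedGCDMonoid R) := inferInstance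
  obtain ⟨j, hj⟩ : ∃ j, G j ≠ 0 := by
    by_contra hcon
    push Not at hcon
    have := hG 0 (fun i => by rw [hcon i])
    exact not_isUnit_zero this
  have hu : IsUnit (Finset.univ.gcd G) := hG _ fun i => Finset.gcd_dvd (Finset.mem_univ i)
  have h1 : G j ∣ Finset.univ.gcd (fun i => G i * H j) :=
    Finset.dvd_gcd fun i _ => ⟨H i, hGH i j⟩
  have h2 : G j ∣ H j := by
    have h3 : G j ∣ Finset.univ.gcd G * H j :=
      (Finset.gcd_mul_right' (s := Finset.univ) (f := G) (H j)).dvd_iff_dvd_right.mp h1
    exact (hu.dvd_mul_left).mp h3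
  obtain ⟨h, hh⟩ := h2
  refine ⟨h, fun i => ?_⟩
  have := hGH i j
  rw [hh] at this
  have h4 : G j * (G i * h) = G j * H i := by linear_combination this
  have := mul_left_cancel₀ hj h4
  rw [← this, mul_comm]

end UFD

/-- a factor of a nonzero homogeneous polynomial is homogeneous -/
theorem factor_homog {σ K : Type*} [Field K] {a b : MvPolynomial σ K} {d : ℕ}
    (h : (a * b).IsHomogeneous d) (h0 : a * b ≠ 0) : ∃ e, e ≤ d ∧ b.IsHomogeneous e := by
  classical
  have ha : a ≠ 0 := left_ne_zero_of_mul h0
  have hb : b ≠ 0 := right_ne_zero_of_mul h0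
  -- the ring map `p ↦ p(T X)`
  let ψ : MvPolynomial σ K →ₐ[K] Polynomial (MvPolynomial σ K) :=
    aeval (fun i => Polynomial.X * Polynomial.C (X i))
  have hcoef : ∀ p : MvPolynomial σ K, ∀ k, (ψ p).coeff k = homogeneousComponent k p := by
    intro p k
    induction p using MvPolynomial.induction_on' with
    | monomial u c =>
      have h1 : ψ (monomial u c) = Polynomial.C (monomial u c) * Polynomial.X ^ u.degree := by
        simp only [ψ, aeval_monomial]
        rw [Finsupp.prod]
        simp only [mul_pow]
        rw [Finset.prod_mul_distrib, Finset.prod_pow_eq_pow_sum]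
        have h2 : (monomial u c : MvPolynomial σ K) = C c * ∏ i ∈ u.support, X i ^ u i := by
          rw [monomial_eq, Finsupp.prod]
        rw [h2]
        simp only [map_mul, map_prod, map_pow]
        have h3 : (algebraMap K (Polynomial (MvPolynomial σ K))) c = Polynomial.C (C c) := rfl
        rw [h3]
        have h4 : u.degree = ∑ i ∈ u.support, u i := rfl
        rw [h4]
        ring
      rw [h1, Polynomial.coeff_C_mul_X_pow]
      by_cases hk : k = u.degree
      · subst hk
        rw [if_pos rfl, homogeneousComponent_of_mem, if_pos rfl]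
        exact isHomogeneous_monomial c rfl
      · rw [if_neg hk, homogeneousComponent_of_mem (isHomogeneous_monomial (R := K) c rfl),
          if_neg (by simpa using hk)]
    | add p q hp hq => rw [map_add, Polynomial.coeff_add, hp, hq, map_add]
  have hinj : Function.Injective ψ := by
    rw [injective_iff_map_eq_zero]
    intro p hp
    have := sum_homogeneousComponent p
    rw [← this]
    refine Finset.sum_eq_zero fun k _ => ?_
    rw [← hcoef, hp, Polynomial.coeff_zero]
  have hmul : ψ a * ψ b = Polynomial.C (a * b) * Polynomial.X ^ d := by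
    rw [← map_mul]
    ext1 k
    rw [hcoef, Polynomial.coeff_C_mul_X_pow]
    by_cases hk : k = d
    · subst hk
      rw [if_pos rfl, homogeneousComponent_of_mem h, if_pos rfl]
    · rw [if_neg hk, homogeneousComponent_of_mem h, if_neg (by simpa using hk)]
  have hψa : ψ a ≠ 0 := (map_ne_zero_iff ψ hinj).mpr ha
  have hψb : ψ b ≠ 0 := (map_ne_zero_iff ψ hinj).mpr hb
  have hd1 : (ψ a).natDegree + (ψ b).natDegree = d := by
    rw [← Polynomial.natDegree_mul hψa hψb, hmul, Polynomial.natDegree_C_mul_X_pow _ _ h0]
  have hd2 : (ψ a).natTrailingDegree + (ψ b).natTrailingDegree = d := by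
    rw [← Polynomial.natTrailingDegree_mul hψa hψb, hmul]
    rw [Polynomial.natTrailingDegree_mul (Polynomial.C_ne_zero.mpr h0)
      (pow_ne_zero _ Polynomial.X_ne_zero), Polynomial.natTrailingDegree_C,
      Polynomial.natTrailingDegree_X_pow, zero_add]
  have hle1 := Polynomial.natTrailingDegree_le_natDegree (ψ a)
  have hle2 := Polynomial.natTrailingDegree_le_natDegree (ψ b)
  have heq : (ψ b).natTrailingDegree = (ψ b).natDegree := by omega
  refine ⟨(ψ b).natDegree, by omega, ?_⟩
  have hb2 : b = homogeneousComponent (ψ b).natDegree b := by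
    conv_lhs => rw [← sum_homogeneousComponent b]
    by_cases hm : (ψ b).natDegree ∈ Finset.range (b.totalDegree + 1)
    · rw [Finset.sum_eq_single_of_mem _ hm]
      intro k _ hk
      rw [← hcoef]
      rcases lt_or_gt_of_ne hk with hlt | hgt
      · exact Polynomial.coeff_eq_zero_of_lt_natTrailingDegree (by omega)
      · exact Polynomial.coeff_eq_zero_of_natDegree_lt hgt
    · exfalso
      apply hm
      rw [Finset.mem_range]
      by_contra hcon
      have : homogeneousComponent (ψ b).natDegree b = 0 :=
        homogeneousComponent_eq_zero _ _ (by omega)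
      rw [← hcoef] at this
      have h5 : (ψ b).leadingCoeff = 0 := this
      exact hψb (Polynomial.leadingCoeff_eq_zero.mp h5)
  have h6 := homogeneousComponent_isHomogeneous (ψ b).natDegree b
  rwa [← hb2] at h6

end Pool.Agent.Run7.h942.DG
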