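import Pool.Agent.Run7.h942.DG.Height

/-! Growth of the `x`-coordinates of `2^k σ`. -/

namespace Pool.Agent.Run7.h942.DG

open WeierstrassCurve WeierstrassCurve.Affine Polynomial

section poly

variable {K : Type*} [Field K] [CharZero K]

/-- one duplication step on `K[T]` -/
theorem step {p q : K[X]} {h : ℕ} {a : ℤ} (hpq : IsCoprime p q) (hp : p.natDegree = h)
    (hq : q.natDegree = h) (hq0 : q ≠ 0)
    (hlc : p.leadingCoeff = (a : K) * q.leadingCoeff) :
    ∃ (g p' q' : K[X]) (h' : ℕ), g ≠ 0 ∧ IsCoprime p' q' ∧ p'.natDegree = h' ∧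
      q'.natDegree = h' ∧ q' ≠ 0 ∧ p'.leadingCoeff = ((-2 * a - 1 : ℤ) : K) * q'.leadingCoeff ∧
      4 * h ≤ h' + 1 ∧
      p ^ 4 - 8 * X * p * q ^ 3 - 4 * X * q ^ 4 = g * p' ∧
      4 * (p ^ 3 * q + p ^ 2 * q ^ 2 + X * q ^ 4) = g * q' := by
  classical
  set Nn : K[X] := p ^ 4 - 8 * X * p * q ^ 3 - 4 * X * q ^ 4 with hNn
  set Dd : K[X] := 4 * (p ^ 3 * q + p ^ 2 * q ^ 2 + X * q ^ 4) with hDd
  have hph : p.coeff h = (a : K) * q.coeff h := by
    have h1 : p.leadingCoeff = p.coeff h := by rw [leadingCoeff, hp]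
    have h2 : q.leadingCoeff = q.coeff h := by rw [leadingCoeff, hq]
    rw [← h1, ← h2]; exact hlc
  have hqh : q.coeff h ≠ 0 := by
    have h2 : q.leadingCoeff = q.coeff h := by rw [leadingCoeff, hq]
    rw [← h2]; exact leadingCoeff_ne_zero.mpr hq0
  have hpd : p.natDegree ≤ h := hp.le
  have hqd : q.natDegree ≤ h := hq.le
  have d1 : (p ^ 4).natDegree ≤ 4 * h := natDegree_pow_le_of_le 4 hpd
  have d2 : (q ^ 3 * (2 * p + q)).natDegree ≤ 4 * h := by
    have e1 : (q ^ 3).natDegree ≤ 3 * h := natDegree_pow_le_of_le 3 hqd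
    have e2 : (2 * p + q).natDegree ≤ h := by
      refine natDegree_add_le_of_degree_le ?_ hqd
      have : (2 * p : K[X]) = C 2 * p := by rw [map_ofNat]
      rw [this]
      exact (natDegree_C_mul_le _ _).trans hpd
    exact (natDegree_mul_le_of_le e1 e2).trans (by omega)
  have c2 : (q ^ 3 * (2 * p + q)).coeff (4 * h) =
      q.coeff h ^ 3 * (2 * p.coeff h + q.coeff h) := by
    have e1 : (q ^ 3).natDegree ≤ 3 * h := natDegree_pow_le_of_le 3 hqd
    have e2 : (2 * p + q).natDegree ≤ h := by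
      refine natDegree_add_le_of_degree_le ?_ hqd
      have : (2 * p : K[X]) = C 2 * p := by rw [map_ofNat]
      rw [this]
      exact (natDegree_C_mul_le _ _).trans hpd
    have e3 : 4 * h = 3 * h + h := by ring
    rw [e3, coeff_mul_add_eq_of_natDegree_le e1 e2, coeff_pow_of_natDegree_le hqd]
    congr 1
    have : (2 * p : K[X]) = C 2 * p := by rw [map_ofNat]
    rw [this, coeff_add, coeff_C_mul]
  have d3 : (p ^ 3 * q + p ^ 2 * q ^ 2).natDegree ≤ 4 * h := by
    refine natDegree_add_le_of_degree_le ?_ ?_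
    · exact (natDegree_mul_le_of_le (natDegree_pow_le_of_le 3 hpd) hqd).trans (by omega)
    · exact (natDegree_mul_le_of_le (natDegree_pow_le_of_le 2 hpd)
        (natDegree_pow_le_of_le 2 hqd)).trans (by omega)
  have d4 : (q ^ 4).natDegree ≤ 4 * h := natDegree_pow_le_of_le 4 hqd
  have c4 : (q ^ 4).coeff (4 * h) = q.coeff h ^ 4 := coeff_pow_of_natDegree_le hqd
  have hN' : Nn = p ^ 4 - C 4 * (X * (q ^ 3 * (2 * p + q))) := by
    rw [hNn, map_ofNat]; ring
  have hD' : Dd = C 4 * ((p ^ 3 * q + p ^ 2 * q ^ 2) + X * q ^ 4) := by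
    rw [hDd, map_ofNat]
  have hNc : Nn.coeff (4 * h + 1) = -4 * q.coeff h ^ 4 * (2 * a + 1) := by
    rw [hN', coeff_sub, coeff_C_mul, coeff_X_mul, c2,
      coeff_eq_zero_of_natDegree_lt (lt_of_le_of_lt d1 (Nat.lt_succ_self _)), hph]
    ring
  have hDc : Dd.coeff (4 * h + 1) = 4 * q.coeff h ^ 4 := by
    rw [hD', coeff_C_mul, coeff_add, coeff_X_mul, c4,
      coeff_eq_zero_of_natDegree_lt (lt_of_le_of_lt d3 (Nat.lt_succ_self _)), zero_add]
  have hNd : Nn.natDegree ≤ 4 * h + 1 := by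
    rw [hN']
    refine (natDegree_sub_le_of_le (m := 4 * h + 1) (n := 4 * h + 1) (d1.trans (by omega))
      ?_).trans (by simp)
    refine (natDegree_C_mul_le _ _).trans ?_
    exact (natDegree_mul_le_of_le natDegree_X_le d2).trans (by omega)
  have hDd1 : Dd.natDegree ≤ 4 * h + 1 := by
    rw [hD']
    refine (natDegree_C_mul_le _ _).trans ?_
    refine natDegree_add_le_of_degree_le (d3.trans (by omega)) ?_
    exact (natDegree_mul_le_of_le natDegree_X_le d4).trans (by omega)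
  have h2a : (2 * (a : K) + 1) ≠ 0 := by
    intro h0
    have : ((2 * a + 1 : ℤ) : K) = 0 := by push_cast; exact h0
    have h3 : (2 * a + 1 : ℤ) = 0 := by exact_mod_cast this
    omega
  have hNc0 : Nn.coeff (4 * h + 1) ≠ 0 := by
    rw [hNc]
    exact mul_ne_zero (mul_ne_zero (by norm_num) (pow_ne_zero 4 hqh)) h2a
  have hDc0 : Dd.coeff (4 * h + 1) ≠ 0 := by
    rw [hDc]
    exact mul_ne_zero (by norm_num) (pow_ne_zero 4 hqh)
  have hN0 : Nn ≠ 0 := by rintro h0; rw [h0] at hNc0; simp at hNc0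
  have hD0 : Dd ≠ 0 := by rintro h0; rw [h0] at hDc0; simp at hDc0
  have hNdeg : Nn.natDegree = 4 * h + 1 := natDegree_eq_of_le_of_coeff_ne_zero hNd hNc0
  have hDdeg : Dd.natDegree = 4 * h + 1 := natDegree_eq_of_le_of_coeff_ne_zero hDd1 hDc0
  -- the gcd
  set g := EuclideanDomain.gcd Nn Dd with hg
  have hg0 : g ≠ 0 := by
    intro h0
    exact hN0 (EuclideanDomain.gcd_eq_zero_iff.mp h0).1
  obtain ⟨p', hp'⟩ := EuclideanDomain.gcd_dvd_left Nn Dd
  obtain ⟨q', hq'⟩ := EuclideanDomain.gcd_dvd_right Nn Dd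
  rw [← hg] at hp' hq'
  have hcop : IsCoprime p' q' := by
    obtain ⟨A, B, hAB⟩ : ∃ A B, g = Nn * A + Dd * B :=
      ⟨_, _, EuclideanDomain.gcd_eq_gcd_ab Nn Dd⟩
    refine ⟨A, B, ?_⟩
    apply mul_left_cancel₀ hg0
    linear_combination (-A) * hp' - B * hq' - hAB
  have hgN : g ∣ Nn := ⟨p', hp'⟩
  have hgD : g ∣ Dd := ⟨q', hq'⟩
  have hq7 : g ∣ X * (27 * X + 4) * q ^ 7 := by
    have e : X * (27 * X + 4) * q ^ 7 = (-q ^ 3 + 2 * p * q ^ 2 + 3 * p ^ 2 * q) * Nn +
        (27 * X * q ^ 3 + p ^ 2 * q - 3 * p ^ 3) *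
          (p ^ 3 * q + p ^ 2 * q ^ 2 + X * q ^ 4) := by
      rw [hNn]; ring
    have e4 : g ∣ (p ^ 3 * q + p ^ 2 * q ^ 2 + X * q ^ 4) := by
      have hu : IsUnit (4 : K[X]) := by
        rw [← map_ofNat (C : K →+* K[X]) 4]
        exact isUnit_C.mpr (isUnit_iff_ne_zero.mpr (by norm_num))
      exact (hu.dvd_mul_left).mp hgD
    rw [e]
    exact dvd_add (Dvd.dvd.mul_left hgN _) (Dvd.dvd.mul_left e4 _)
  have hp7 : g ∣ X * (27 * X + 4) * p ^ 7 := by
    have e : X * (27 * X + 4) * p ^ 7 = (24 * X ^ 3 * q ^ 3 + 4 * X ^ 2 * p * q ^ 2 +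
        20 * X ^ 2 * p ^ 2 * q + 4 * X * p ^ 3 + 27 * X ^ 2 * p ^ 3) * Nn +
        (24 * X ^ 3 * q ^ 3 + 4 * X ^ 2 * p * q ^ 2 + 48 * X ^ 3 * p * q ^ 2 +
          4 * X ^ 2 * p ^ 2 * q - 5 * X ^ 2 * p ^ 3) * Dd := by
      rw [hNn, hDd]; ring
    rw [e]
    exact dvd_add (Dvd.dvd.mul_left hgN _) (Dvd.dvd.mul_left hgD _)
  have hgT : g ∣ X * (27 * X + 4) := by
    have hc7 : IsCoprime (p ^ 7) (q ^ 7) := hpq.pow
    obtain ⟨u, v, huv⟩ := hc7
    have : X * (27 * X + 4) = u * (X * (27 * X + 4) * p ^ 7) + v * (X * (27 * X + 4) * q ^ 7) := by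
      calc X * (27 * X + 4) = X * (27 * X + 4) * (u * p ^ 7 + v * q ^ 7) := by rw [huv, mul_one]
        _ = _ := by ring
    rw [this]
    exact dvd_add (Dvd.dvd.mul_left hp7 _) (Dvd.dvd.mul_left hq7 _)
  have hT0 : (X * (27 * X + 4) : K[X]) ≠ 0 := by
    intro h0
    have := congrArg (fun r => coeff r 1) h0
    simp only [coeff_X_mul, coeff_zero] at this
    have h1 : (27 * X + 4 : K[X]) = C 27 * X + C 4 := by rw [map_ofNat, map_ofNat]
    rw [h1, coeff_add, coeff_C_mul, coeff_X_zero, coeff_C_zero] at this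
    norm_num at this
  have hgdeg : g.natDegree ≤ 2 := by
    refine (natDegree_le_of_dvd hgT hT0).trans ?_
    refine (natDegree_mul_le_of_le natDegree_X_le (m := 1) (n := 1) ?_).trans (by omega)
    have h1 : (27 * X + 4 : K[X]) = C 27 * X + C 4 := by rw [map_ofNat, map_ofNat]
    rw [h1]
    exact natDegree_linear_le
  have hp'0 : p' ≠ 0 := by rintro rfl; rw [mul_zero] at hp'; exact hN0 hp'
  have hq'0 : q' ≠ 0 := by rintro rfl; rw [mul_zero] at hq'; exact hD0 hq'
  have hp'd : g.natDegree + p'.natDegree = 4 * h + 1 := by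
    rw [← natDegree_mul hg0 hp'0, ← hp', hNdeg]
  have hq'd : g.natDegree + q'.natDegree = 4 * h + 1 := by
    rw [← natDegree_mul hg0 hq'0, ← hq', hDdeg]
  refine ⟨g, p', q', 4 * h + 1 - g.natDegree, hg0, hcop, by omega, by omega, hq'0, ?_, by omega,
    hp', hq'⟩
  have l1 : g.leadingCoeff * p'.leadingCoeff = -4 * q.coeff h ^ 4 * (2 * a + 1) := by
    rw [← leadingCoeff_mul, ← hp', leadingCoeff, hNdeg, hNc]
  have l2 : g.leadingCoeff * q'.leadingCoeff = 4 * q.coeff h ^ 4 := by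
    rw [← leadingCoeff_mul, ← hq', leadingCoeff, hDdeg, hDc]
  apply mul_left_cancel₀ (leadingCoeff_ne_zero.mpr hg0)
  rw [l1]
  push_cast
  linear_combination (2 * (a : K) + 1) * l2

end poly

section sigma

variable {K : Type*} [Field K] [CharZero K] [DecidableEq (LL K)]

omit [DecidableEq (LL K)] in
theorem trans_ss : Transcendental K (ss K ^ 2) := by
  intro h
  have h1 : ss K ^ 2 ∈ cl K ({x1 K, x2 K} : Set (LL K)) :=
    IsAlgebraic.extendScalars (S := Algebra.adjoin K ({x1 K, x2 K} : Set (LL K)))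
      (FaithfulSMul.algebraMap_injective _ _) h
  exact cl_pair_ne (x1 K) (x2 K) (full_of_cl K (sqrt_mem h1) (subset_cl (by simp))
    (subset_cl (by simp)))

/-- the `x`-coordinates of the points `2^k σ`, `k ≥ 2` -/
theorem sigma_x (k : ℕ) : ∃ (p q : K[X]) (h : ℕ) (a : ℤ), IsCoprime p q ∧ p.natDegree = h ∧
    q.natDegree = h ∧ q ≠ 0 ∧ Odd a ∧ p.leadingCoeff = (a : K) * q.leadingCoeff ∧
    2 * 4 ^ k + 1 ≤ 3 * h ∧ ∃ y hy, 2 ^ (k + 2) • sg K =
      .some (aeval (ss K ^ 2) p / aeval (ss K ^ 2) q) y hy := by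
  have hinj : ∀ r : K[X], r ≠ 0 → aeval (ss K ^ 2) r ≠ 0 := by
    intro r hr h0
    exact trans_ss (K := K) ⟨r, hr, h0⟩
  have hs := ss_ne K
  induction k with
  | zero =>
    refine ⟨4 * X + 1, 4 * X, 1, 1, ?_, ?_, ?_, ?_, odd_one, ?_, by norm_num, ?_⟩
    · exact ⟨1, -1, by ring⟩
    · have : (4 * X + 1 : K[X]) = C 4 * X + C 1 := by rw [map_ofNat, map_one]
      rw [this]
      exact natDegree_linear (by norm_num)
    · have : (4 * X : K[X]) = C 4 * X := by rw [map_ofNat]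
      rw [this]
      exact natDegree_C_mul_X 4 (by norm_num)
    · have : (4 * X : K[X]) = C 4 * X := by rw [map_ofNat]
      rw [this]
      exact mul_ne_zero (C_ne_zero.mpr (by norm_num)) X_ne_zero
    · have e1 : (4 * X + 1 : K[X]) = C 4 * X + C 1 := by rw [map_ofNat, map_one]
      have e2 : (4 * X : K[X]) = C 4 * X := by rw [map_ofNat]
      rw [e1, e2, leadingCoeff_linear (by norm_num), leadingCoeff_C_mul_X]
      simp
    · -- 2σ
      have hx2 : ((0 : LL K) ^ 4 - 8 * ss K ^ 2 * 0 - 4 * ss K ^ 2) /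
          (4 * ((0 : LL K) ^ 3 + 0 ^ 2 + ss K ^ 2)) = -1 := by
        field_simp; ring
      obtain ⟨y', h', h2⟩ : ∃ y' h', 2 • sg K = .some (-1) y' h' := by
        obtain ⟨y', h', h2⟩ := double_x (s := ss K) (x := 0) (y := ss K)
          (nons (by ring) (ss_ne K)) hs
        refine ⟨y', hx2 ▸ h', ?_⟩
        rw [two_nsmul]
        refine Eq.trans h2 ?_
        rw [Point.some.injEq]
        exact ⟨hx2, rfl⟩
      have e' := eqn h'
      have hy' : y' ≠ 0 := by
        rintro rfl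
        have : ss K ^ 2 = 0 := by linear_combination -e'
        exact hs (pow_eq_zero_iff two_ne_zero |>.mp this)
      obtain ⟨y'', h'', h4⟩ := double_x h' hy'
      have h4' : 2 ^ (0 + 2) • sg K = .some _ y'' h'' := by
        have : 2 ^ (0 + 2) • sg K = 2 • (2 • sg K) := by
          rw [smul_smul]; norm_num
        rw [this, h2, two_nsmul]
        exact h4
      have hx4 : ((-1 : LL K) ^ 4 - 8 * ss K ^ 2 * (-1) - 4 * ss K ^ 2) /
          (4 * ((-1 : LL K) ^ 3 + (-1) ^ 2 + ss K ^ 2)) =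
          aeval (ss K ^ 2) (4 * X + 1 : K[X]) / aeval (ss K ^ 2) (4 * X : K[X]) := by
        simp only [map_add, map_mul, aeval_X, map_one, map_ofNat]
        field_simp
        ring
      refine ⟨y'', hx4 ▸ h'', ?_⟩
      rw [h4', Point.some.injEq]
      exact ⟨hx4, rfl⟩
  | succ k ih =>
    obtain ⟨p, q, h, a, hpq, hp, hq, hq0, ha, hlc, hh, y, hy, hP⟩ := ih
    obtain ⟨g, p', q', h', hg0, hpq', hp', hq', hq0', hlc', hh', hN, hD⟩ :=
      step hpq hp hq hq0 hlc
    set t := ss K ^ 2 with ht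
    have hqt := hinj q hq0
    have hgt := hinj g hg0
    have hqt' := hinj q' hq0'
    have hN' := congrArg (aeval t) hN
    have hD' := congrArg (aeval t) hD
    simp only [map_sub, map_mul, map_pow, map_add, aeval_X, map_ofNat] at hN' hD'
    have hD0 : 4 * (aeval t p ^ 3 * aeval t q + aeval t p ^ 2 * aeval t q ^ 2 +
        t * aeval t q ^ 4) ≠ 0 := by
      rw [hD']; exact mul_ne_zero hgt hqt'
    have e := eqn hy
    have hy0 : y ≠ 0 := by
      rintro rfl
      apply hD0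
      rw [← ht] at e
      field_simp at e
      linear_combination (-4 * aeval t q) * e
    obtain ⟨y', h'', hdbl⟩ := double_x hy hy0
    have hx : ((aeval t p / aeval t q) ^ 4 - 8 * ss K ^ 2 * (aeval t p / aeval t q) -
        4 * ss K ^ 2) / (4 * ((aeval t p / aeval t q) ^ 3 + (aeval t p / aeval t q) ^ 2 +
        ss K ^ 2)) = aeval t p' / aeval t q' := by
      rw [← ht]
      have e1 : aeval t p' / aeval t q' = (aeval t g * aeval t p') / (aeval t g * aeval t q') := by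
        rw [mul_div_mul_left _ _ hgt]
      rw [e1, ← hN', ← hD']
      have e2 : (4 * ((aeval t p / aeval t q) ^ 3 + (aeval t p / aeval t q) ^ 2 + t)) * aeval t q ^ 4
          = 4 * (aeval t p ^ 3 * aeval t q + aeval t p ^ 2 * aeval t q ^ 2 +
        t * aeval t q ^ 4) := by
        field_simp
      have e3 : ((aeval t p / aeval t q) ^ 4 - 8 * t * (aeval t p / aeval t q) - 4 * t) *
          aeval t q ^ 4 = aeval t p ^ 4 - 8 * t * aeval t p * aeval t q ^ 3 -
            4 * t * aeval t q ^ 4 := by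
        field_simp
      rw [← e2, ← e3, mul_div_mul_right _ _ (pow_ne_zero 4 hqt)]
    refine ⟨p', q', h', -2 * a - 1, hpq', hp', hq', hq0', ?_, hlc', ?_, y', hx ▸ h'', ?_⟩
    · exact ⟨-a - 1, by ring⟩
    · rw [pow_succ]; omega
    · have e5 : 2 ^ (k + 1 + 2) • sg K = 2 • (2 ^ (k + 2) • sg K) := by
        rw [smul_smul]
        congr 1
        ring
      rw [e5, hP, two_nsmul, hdbl, Point.some.injEq]
      exact ⟨hx, rfl⟩

end sigma

end Pool.Agent.Run7.h942.DG
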